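import Pool.Agent.Helper85.LowMult.Basic

/-!
A robust form of the general inequality: only the difference vectors of a large subset matter.
-/

set_option autoImplicit false
open scoped Classical

namespace Pool.Agent.Helper85.GAP

open Pool.Agent.Helper85.LowMult

variable {E : Type*} [NormedAddCommGroup E] [InnerProductSpace ℝ E]

omit [InnerProductSpace ℝ E] in
lemma mem_pairs {P : Finset E} {d : ℝ} {x : E × E} :
    x ∈ pairs P d ↔ x.1 ∈ P ∧ x.2 ∈ P ∧ x.1 ≠ x.2 ∧ dist x.1 x.2 = d := by
  simp only [pairs, Finset.mem_filter, Finset.mem_offDiag]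
  tauto

/-- distances of `P₀` which are realised at most `n` times (ordered) in `P₀` -/
lemma few_distances {P P₀ : Finset E} (hP₀ : P₀ ⊆ P) (S : Finset ℝ)
    (hS : ∀ d ∈ S, (pairs P₀ d).Nonempty ∧ (pairs P₀ d).card ≤ P.card) :
    S.card ≤ (low P).card + 2 * (P.card - P₀.card) := by
  set n := P.card with hn
  set e := n - P₀.card with he
  -- the distances of `S` that are high in `P`
  set S1 := S.filter (fun d => (pairs P d).card ≤ 2 * n) with hS1
  set S2 := S.filter (fun d => ¬ (pairs P d).card ≤ 2 * n) with hS2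
  have h1 : S1.card ≤ (low P).card := by
    apply Finset.card_le_card
    intro d hd
    rw [hS1, Finset.mem_filter] at hd
    obtain ⟨x, hx⟩ := (hS d hd.1).1
    rw [mem_pairs] at hx
    simp only [low, Finset.mem_filter, Finset.mem_image, Finset.mem_offDiag]
    exact ⟨⟨x, ⟨hP₀ hx.1, hP₀ hx.2.1, hx.2.2.1⟩, hx.2.2.2⟩, hd.2⟩
  -- pairs touching `P \ P₀`
  set touched := P.offDiag.filter (fun x => ¬ (x.1 ∈ P₀ ∧ x.2 ∈ P₀)) with ht
  have h2 : touched.card ≤ 2 * e * n := by
    have hsub : touched ⊆ ((P \ P₀) ×ˢ P) ∪ (P ×ˢ (P \ P₀)) := by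
      intro x hx
      rw [ht, Finset.mem_filter, Finset.mem_offDiag] at hx
      rw [Finset.mem_union, Finset.mem_product, Finset.mem_product, Finset.mem_sdiff, Finset.mem_sdiff]
      tauto
    have hc := Finset.card_le_card hsub
    have hc2 := Finset.card_union_le ((P \ P₀) ×ˢ P) (P ×ˢ (P \ P₀))
    rw [Finset.card_product, Finset.card_product, Finset.card_sdiff_of_subset hP₀] at hc2
    calc touched.card ≤ _ := hc.trans hc2
      _ = 2 * e * n := by rw [he, hn]; ring
  have h3 : S2.card * n ≤ touched.card := by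
    have hmaps : ∀ d ∈ S2, n ≤ (touched.filter (fun x => dist x.1 x.2 = d)).card := by
      intro d hd
      rw [hS2, Finset.mem_filter] at hd
      have hsub : pairs P d ⊆ pairs P₀ d ∪ touched.filter (fun x => dist x.1 x.2 = d) := by
        intro x hx
        rw [mem_pairs] at hx
        rw [Finset.mem_union, mem_pairs, Finset.mem_filter, ht, Finset.mem_filter, Finset.mem_offDiag]
        tauto
      have := (Finset.card_le_card hsub).trans (Finset.card_union_le _ _)
      have h4 := (hS d hd.1).2
      omega
    have := Finset.sum_le_sum hmaps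
    rw [Finset.sum_const, smul_eq_mul] at this
    refine this.trans ?_
    rw [← Finset.card_biUnion]
    · apply Finset.card_le_card
      intro x hx
      rw [Finset.mem_biUnion] at hx
      obtain ⟨d, _, hx⟩ := hx
      exact (Finset.mem_filter.mp hx).1
    · intro d _ d' _ hdd'
      rw [Function.onFun, Finset.disjoint_left]
      intro x hx hx'
      exact hdd' ((Finset.mem_filter.mp hx).2.symm.trans (Finset.mem_filter.mp hx').2)
  have h5 : S2.card ≤ 2 * e := by
    by_cases hn0 : n = 0
    · -- no pairs at all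
      have hPe : P = ∅ := Finset.card_eq_zero.mp (hn.symm.trans hn0)
      have : S2 = ∅ := by
        rw [Finset.eq_empty_iff_forall_notMem]
        intro d hd
        rw [hS2, Finset.mem_filter] at hd
        obtain ⟨x, hx⟩ := (hS d hd.1).1
        rw [mem_pairs] at hx
        have := hP₀ hx.1
        rw [hPe] at this
        exact absurd this (Finset.notMem_empty _)
      rw [this, Finset.card_empty]
      exact Nat.zero_le _
    · have : S2.card * n ≤ 2 * e * n := h3.trans h2
      exact Nat.le_of_mul_le_mul_right this (Nat.pos_of_ne_zero hn0)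
  have h6 : S.card = S1.card + S2.card := by
    rw [hS1, hS2, Finset.card_filter_add_card_filter_not]
  omega

/-- **Robust inequality.** -/
theorem low_card_ge_robust (P P₀ : Finset E) (hP₀ : P₀ ⊆ P) (M : ℕ) (hM1 : 1 ≤ M)
    (hM : ∀ d, (pairs P₀ d).Nonempty → ((pairs P₀ d).image (fun x => x.2 - x.1)).card ≤ M) :
    P₀.card ^ 2 ≤ P.card * P₀.card ∧ P₀.card * P₀.card ≤
      P.card * ((low P).card + 2 * (P.card - P₀.card)) + P₀.card ∨
    P.card ^ 2 ≤ M ^ 2 * (2 * (P.card * ((low P).card + 2 * (P.card - P₀.card))) + P.card) := by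
  set n := P.card with hn
  set n₀ := P₀.card with hn₀
  have hle : n₀ ≤ n := Finset.card_le_card hP₀
  by_cases hex : ∃ d, n < (pairs P₀ d).card
  · right
    let H : Finset ℝ := (P₀.offDiag.image (fun x => dist x.1 x.2)).filter
      (fun d => n < (pairs P₀ d).card)
    have memH : ∀ d, n < (pairs P₀ d).card → d ∈ H := by
      intro d hd
      have hpos : 0 < (pairs P₀ d).card := by omega
      obtain ⟨x, hx⟩ := Finset.card_pos.mp hpos
      simp only [H, Finset.mem_filter, Finset.mem_image]
      simp only [pairs, Finset.mem_filter] at hx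
      exact ⟨⟨x, hx.1, hx.2⟩, hd⟩
    have hH : H.Nonempty := by
      obtain ⟨d, hd⟩ := hex
      exact ⟨d, memH d hd⟩
    obtain ⟨d, hdH, hdmax⟩ := Finset.exists_max_image H id hH
    simp only [H, Finset.mem_filter, Finset.mem_image] at hdH
    obtain ⟨_, hd2⟩ := hdH
    have hfar : ∀ d' > d, (pairs P₀ d').card ≤ n := by
      intro d' hd'
      by_contra hcon
      push Not at hcon
      have := hdmax d' (memH d' hcon)
      simp only [id] at this
      linarith
    -- the far pairs of `P₀`
    have hF : (far P₀ d).card ≤ n * ((low P).card + 2 * (n - n₀)) := by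
      have h1 := few_distances hP₀ ((far P₀ d).image (fun x => dist x.1 x.2)) (by
        intro d' hd'
        rw [Finset.mem_image] at hd'
        obtain ⟨x, hx, rfl⟩ := hd'
        simp only [far, Finset.mem_filter, Finset.mem_offDiag] at hx
        exact ⟨⟨x, by rw [mem_pairs]; exact ⟨hx.1.1, hx.1.2.1, hx.1.2.2, rfl⟩⟩, hfar _ hx.2⟩)
      have h2 : (far P₀ d).card ≤ n * ((far P₀ d).image (fun x => dist x.1 x.2)).card := by
        apply Finset.card_le_mul_card_image
        intro b hb
        rw [Finset.mem_image] at hb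
        obtain ⟨x, hx, rfl⟩ := hb
        simp only [far, Finset.mem_filter, Finset.mem_offDiag] at hx
        refine le_trans (Finset.card_le_card ?_) (hfar _ hx.2)
        intro y hy
        simp only [far, Finset.mem_filter] at hy ⊢
        simp only [pairs, Finset.mem_filter]
        exact ⟨hy.1.1, hy.2⟩
      exact h2.trans (Nat.mul_le_mul_left _ h1)
    set D := (pairs P₀ d).image (fun x => x.2 - x.1) with hD
    have hne : (pairs P₀ d).Nonempty := Finset.card_pos.mp (by omega)
    have hDne : D.Nonempty := by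
      obtain ⟨x, hx⟩ := hne
      exact ⟨x.2 - x.1, Finset.mem_image_of_mem _ hx⟩
    obtain ⟨v, hvD, hvmax⟩ := Finset.exists_max_image D
      (fun v => ((pairs P₀ d).filter (fun x => x.2 - x.1 = v)).card) hDne
    have h1 : (pairs P₀ d).card ≤
        ((pairs P₀ d).filter (fun x => x.2 - x.1 = v)).card * D.card :=
      Finset.card_le_mul_card_image _ _ (fun b hb => hvmax b hb)
    have hnormv : ‖v‖ = d := by
      rw [hD, Finset.mem_image] at hvD
      obtain ⟨x, hx, rfl⟩ := hvD
      simp only [pairs, Finset.mem_filter] at hx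
      rw [← hx.2, dist_comm, dist_eq_norm]
    have h2 : ((pairs P₀ d).filter (fun x => x.2 - x.1 = v)).card ≤
        (P₀.filter (fun x => x + v ∈ P₀)).card := by
      apply Finset.card_le_card_of_injOn (fun x => x.1)
      · rintro ⟨x, y⟩ hx
        simp only [pairs, Finset.coe_filter, Finset.mem_filter, Finset.mem_offDiag,
          Set.mem_ofPred_eq] at hx ⊢
        obtain ⟨⟨⟨hx1, hx2, _⟩, _⟩, hxy⟩ := hx
        refine ⟨hx1, ?_⟩
        rw [← hxy]
        simpa using hx2
      · rintro ⟨x, y⟩ hx ⟨x', y'⟩ hx' h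
        simp only [Finset.coe_filter, Set.mem_ofPred_eq] at hx hx' h
        rw [Prod.mk.injEq]
        refine ⟨h, ?_⟩
        have e1 : y = v + x := by rw [← hx.2]; abel
        have e2 : y' = v + x' := by rw [← hx'.2]; abel
        rw [e1, e2, h]
    have h3 := translate_card P₀ v
    rw [hnormv, Finset.offDiag_card] at h3
    set a := (P₀.filter (fun x => x + v ∈ P₀)).card with ha
    have han : a ≤ n₀ := Finset.card_filter_le _ _
    have hDM : D.card ≤ M := hM d hne
    have h4 : n < a * M := by
      calc n < (pairs P₀ d).card := hd2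
        _ ≤ _ := h1
        _ ≤ a * M := Nat.mul_le_mul h2 hDM
    set Q := n * ((low P).card + 2 * (n - n₀)) with hQ
    have h5 : a * a ≤ 2 * Q + n := by
      have : a * a - a ≤ 2 * Q := h3.trans (Nat.mul_le_mul_left 2 hF)
      omega
    calc n ^ 2 = n * n := by ring
      _ ≤ (a * M) * (a * M) := Nat.mul_le_mul h4.le h4.le
      _ = M ^ 2 * (a * a) := by ring
      _ ≤ M ^ 2 * (2 * Q + n) := Nat.mul_le_mul_left _ h5
  · left
    push Not at hex
    constructor
    · rw [sq]; exact Nat.mul_le_mul_right _ hle
    have h1 := few_distances hP₀ (P₀.offDiag.image (fun x => dist x.1 x.2)) (by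
      intro d' hd'
      rw [Finset.mem_image] at hd'
      obtain ⟨x, hx, rfl⟩ := hd'
      rw [Finset.mem_offDiag] at hx
      exact ⟨⟨x, by rw [mem_pairs]; exact ⟨hx.1, hx.2.1, hx.2.2, rfl⟩⟩, hex _⟩)
    have h2 : P₀.offDiag.card ≤ n * (P₀.offDiag.image (fun x => dist x.1 x.2)).card :=
      Finset.card_le_mul_card_image _ _ (fun b _ => hex b)
    have h3 := h2.trans (Nat.mul_le_mul_left n h1)
    rw [Finset.offDiag_card] at h3
    have h4 : n₀ * n₀ - n₀ ≤ n * ((low P).card + 2 * (n - n₀)) := h3
    omega

end Pool.Agent.Helper85.GAP
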