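import Pool.Agent.Helper85.GAP.Uni2

/-!
Algebraic numbers of bounded degree and bounded height.
-/

set_option autoImplicit false
open scoped Classical

namespace Pool.Agent.Helper85.GAP

open NumberField Pool.Agent.Helper85.LowMult

/-- `x` lies in `E`, all its images under embeddings of `E` have absolute value at most `B`, and
`m * x` is integral for a natural number `0 < m ≤ B`. -/
structure BdIn (E : IntermediateField ℚ ℂ) (B : ℝ) (x : ℂ) : Prop where
  mem : x ∈ E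
  conj : ∀ σ : E →+* ℂ, ‖σ ⟨x, mem⟩‖ ≤ B
  den : ∃ m : ℕ, 0 < m ∧ (m : ℝ) ≤ B ∧ IsIntegral ℤ ((m : ℂ) * x)

lemma BdIn.one_le {E : IntermediateField ℚ ℂ} {B : ℝ} {x : ℂ} (h : BdIn E B x) : 1 ≤ B := by
  obtain ⟨m, hm, hmB, _⟩ := h.den
  exact le_trans (by exact_mod_cast hm) hmB

lemma BdIn.mono {E E' : IntermediateField ℚ ℂ} (hE : E ≤ E') {B : ℝ} {x : ℂ} (h : BdIn E B x) :
    BdIn E' B x := by
  refine ⟨hE h.mem, fun σ => ?_, h.den⟩
  exact h.conj (σ.comp (IntermediateField.inclusion hE).toRingHom)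

lemma BdIn.mono_bd {E : IntermediateField ℚ ℂ} {B B' : ℝ} (hB : B ≤ B') {x : ℂ}
    (h : BdIn E B x) : BdIn E B' x := by
  obtain ⟨m, hm, hmB, hi⟩ := h.den
  exact ⟨h.mem, fun σ => (h.conj σ).trans hB, m, hm, hmB.trans hB, hi⟩

lemma BdIn.intCast (E : IntermediateField ℚ ℂ) {B : ℝ} (hB : 1 ≤ B) (a : ℤ) (ha : |(a : ℝ)| ≤ B) :
    BdIn E B (a : ℂ) := by
  refine ⟨intCast_mem E a, fun σ => ?_, 1, one_pos, by simpa using hB, ?_⟩
  · have : (⟨(a : ℂ), intCast_mem E a⟩ : E) = ((a : ℤ) : E) := rfl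
    rw [this, map_intCast, Complex.norm_intCast]
    exact ha
  · have : ((1 : ℕ) : ℂ) * (a : ℂ) = algebraMap ℤ ℂ a := by simp
    rw [this]
    exact isIntegral_algebraMap

lemma BdIn.add {E : IntermediateField ℚ ℂ} {B B' : ℝ} {x y : ℂ} (hx : BdIn E B x)
    (hy : BdIn E B' y) : BdIn E (2 * (B * B')) (x + y) := by
  have h1 := hx.one_le
  have h2 := hy.one_le
  obtain ⟨m, hm, hmB, hi⟩ := hx.den
  obtain ⟨m', hm', hmB', hi'⟩ := hy.den
  refine ⟨E.add_mem hx.mem hy.mem, fun σ => ?_, m * m', Nat.mul_pos hm hm', ?_, ?_⟩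
  · have : (⟨x + y, E.add_mem hx.mem hy.mem⟩ : E) = ⟨x, hx.mem⟩ + ⟨y, hy.mem⟩ := rfl
    rw [this, map_add]
    refine (norm_add_le _ _).trans ((add_le_add (hx.conj σ) (hy.conj σ)).trans ?_)
    nlinarith
  · push_cast
    have : (m : ℝ) * m' ≤ B * B' := mul_le_mul hmB hmB' (Nat.cast_nonneg _) (by linarith)
    nlinarith [(Nat.cast_nonneg m : (0:ℝ) ≤ m), (Nat.cast_nonneg m' : (0:ℝ) ≤ m')]
  · have : (((m * m' : ℕ) : ℂ)) * (x + y) = (m' : ℂ) * (m * x) + (m : ℂ) * (m' * y) := by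
      push_cast; ring
    rw [this]
    exact ((isIntegral_algebraMap (R := ℤ) (A := ℂ) (x := (m' : ℤ))).mul hi |>.add
      ((isIntegral_algebraMap (R := ℤ) (A := ℂ) (x := (m : ℤ))).mul hi'))

lemma BdIn.neg {E : IntermediateField ℚ ℂ} {B : ℝ} {x : ℂ} (hx : BdIn E B x) :
    BdIn E B (-x) := by
  obtain ⟨m, hm, hmB, hi⟩ := hx.den
  refine ⟨E.neg_mem hx.mem, fun σ => ?_, m, hm, hmB, ?_⟩
  · have : (⟨-x, E.neg_mem hx.mem⟩ : E) = -⟨x, hx.mem⟩ := rfl
    rw [this, map_neg, norm_neg]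
    exact hx.conj σ
  · rw [mul_neg]
    exact hi.neg

lemma BdIn.mul {E : IntermediateField ℚ ℂ} {B B' : ℝ} {x y : ℂ} (hx : BdIn E B x)
    (hy : BdIn E B' y) : BdIn E (B * B') (x * y) := by
  have h1 := hx.one_le
  have h2 := hy.one_le
  obtain ⟨m, hm, hmB, hi⟩ := hx.den
  obtain ⟨m', hm', hmB', hi'⟩ := hy.den
  refine ⟨E.mul_mem hx.mem hy.mem, fun σ => ?_, m * m', Nat.mul_pos hm hm', ?_, ?_⟩
  · have : (⟨x * y, E.mul_mem hx.mem hy.mem⟩ : E) = ⟨x, hx.mem⟩ * ⟨y, hy.mem⟩ := rfl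
    rw [this, map_mul, norm_mul]
    exact mul_le_mul (hx.conj σ) (hy.conj σ) (norm_nonneg _) (by linarith)
  · push_cast
    exact mul_le_mul hmB hmB' (Nat.cast_nonneg _) (by linarith)
  · have : (((m * m' : ℕ) : ℂ)) * (x * y) = (m * x) * (m' * y) := by
      push_cast; ring
    rw [this]
    exact hi.mul hi'

/-- the algebraic integer `m * x` in the number field `E` -/
lemma BdIn.exists_int {E : IntermediateField ℚ ℂ} {x : ℂ} (hx : x ∈ E) {m : ℕ}
    (hi : IsIntegral ℤ ((m : ℂ) * x)) :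
    ∃ y : 𝓞 E, ((y : E) : ℂ) = m * x := by
  have hmem : (m : ℂ) * x ∈ E := E.mul_mem (natCast_mem E m) hx
  have hint : IsIntegral ℤ (⟨(m : ℂ) * x, hmem⟩ : E) := by
    rw [← isIntegral_algebraMap_iff (algebraMap E ℂ).injective]
    exact hi
  exact ⟨⟨⟨(m : ℂ) * x, hmem⟩, hint⟩, rfl⟩

lemma BdIn.inv {E : IntermediateField ℚ ℂ} [FiniteDimensional ℚ E] {B : ℝ} {D : ℕ}
    (hD : Module.finrank ℚ E ≤ D) {x : ℂ} (hx : BdIn E B x) :
    BdIn E (B * (B * B) ^ D) x⁻¹ := by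
  have hNF : NumberField E := { to_charZero := inferInstance, to_finiteDimensional := inferInstance }
  have hB := hx.one_le
  have hBB : 1 ≤ B * B := by nlinarith
  have hBBD : 1 ≤ (B * B) ^ D := one_le_pow₀ hBB
  by_cases h0 : x = 0
  · subst h0
    rw [inv_zero]
    exact hx.mono_bd (by nlinarith)
  obtain ⟨m, hm, hmB, hi⟩ := hx.den
  obtain ⟨y, hy⟩ := BdIn.exists_int hx.mem hi
  have hm0 : (m : ℂ) ≠ 0 := by exact_mod_cast hm.ne'
  have hyE : ((y : 𝓞 E) : E) = (m : E) * ⟨x, hx.mem⟩ := by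
    apply Subtype.ext
    rw [hy]
    rfl
  have hy0 : y ≠ 0 := by
    intro h
    rw [h] at hy
    have : (m : ℂ) * x = 0 := by rw [← hy]; simp
    exact mul_ne_zero hm0 h0 this
  have hyconj : ∀ σ : E →+* ℂ, ‖σ (y : E)‖ ≤ B * B := by
    intro σ
    rw [hyE, map_mul, map_natCast, norm_mul, Complex.norm_natCast]
    exact mul_le_mul hmB (hx.conj σ) (norm_nonneg _) (by linarith)
  have hyw : ∀ w : InfinitePlace E, w (y : E) ≤ B * B := fun w =>
    (InfinitePlace.le_iff_le _ _).mpr hyconj w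
  refine ⟨E.inv_mem hx.mem, fun σ => ?_, Ideal.absNorm (Ideal.span {y}), ?_, ?_, ?_⟩
  · have e1 : (⟨x⁻¹, E.inv_mem hx.mem⟩ : E) = (⟨x, hx.mem⟩ : E)⁻¹ := rfl
    have hσy : 0 < ‖σ (y : E)‖ := by
      rw [norm_pos_iff, Ne, map_eq_zero]
      simpa using hy0
    have hlow : ((B * B) ^ D)⁻¹ ≤ ‖σ (y : E)‖ := by
      have h1 := log_lower E y hy0 (B * B) hBB hyw (InfinitePlace.mk σ)
      rw [InfinitePlace.apply] at h1
      have h2 : 0 ≤ Real.log (B * B) := Real.log_nonneg hBB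
      have h3 : -(D * Real.log (B * B)) ≤ Real.log ‖σ (y : E)‖ := by
        refine le_trans ?_ h1
        have : (Module.finrank ℚ E : ℝ) ≤ D := by exact_mod_cast hD
        nlinarith
      rw [← Real.log_pow, ← Real.log_inv] at h3
      exact (Real.log_le_log_iff (by positivity) hσy).mp h3
    have e2 : σ (⟨x, hx.mem⟩ : E)⁻¹ = m * (σ (y : E))⁻¹ := by
      rw [hyE, map_mul, map_natCast, mul_inv, map_inv₀, ← mul_assoc, mul_inv_cancel₀ hm0, one_mul]
    rw [e1, e2, norm_mul, norm_inv, Complex.norm_natCast]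
    apply mul_le_mul hmB _ (by positivity) (by linarith)
    rw [inv_le_comm₀ hσy (by positivity)]
    exact hlow
  · rw [Nat.pos_iff_ne_zero, Ne, Ideal.absNorm_eq_zero_iff, Ideal.span_singleton_eq_bot]
    exact hy0
  · have h1 := absNorm_le E y (B * B) (by positivity) hyw
    have h2 : (B * B) ^ (Module.finrank ℚ E) ≤ (B * B) ^ D := pow_le_pow_right₀ hBB hD
    have h3 := h1.trans h2
    nlinarith
  · have h1 := Ideal.absNorm_mem (Ideal.span {y})
    rw [Ideal.mem_span_singleton] at h1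
    obtain ⟨t, ht⟩ := h1
    have h2 : ((Ideal.absNorm (Ideal.span {y}) : ℕ) : ℂ) = (m * x) * ((t : E) : ℂ) := by
      have := congrArg (fun z : 𝓞 E => ((z : E) : ℂ)) ht
      simp only [map_natCast, map_mul] at this
      rw [← hy]
      push_cast at this
      exact this
    have h3 : ((Ideal.absNorm (Ideal.span {y}) : ℕ) : ℂ) * x⁻¹ = (m : ℂ) * ((t : E) : ℂ) := by
      rw [h2]
      field_simp
    rw [h3]
    have h4 : IsIntegral ℤ ((t : E) : ℂ) := by
      have := t.isIntegral_coe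
      exact this.map (IntermediateField.val E |>.restrictScalars ℤ)
    exact (isIntegral_algebraMap (R := ℤ) (A := ℂ) (x := (m : ℤ))).mul h4

end Pool.Agent.Helper85.GAP
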