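import Mathlib

/-!
Extension of embeddings into chains of algebraically closed fields.
-/

set_option autoImplicit false
open scoped Classical

namespace Pool.Agent.Helper85.GAP

open Polynomial IntermediateField

/-- An element outside of an algebraically closed subfield is transcendental over every smaller
field. -/
lemma transc_of_not_mem {Om : Type} [Field Om] (F : Subfield Om) [IsAlgClosed F]
    {T : Om} (hT : T ∉ F) {K : Type} [Field K] (φ : K →+* Om) (hφ : ∀ x, φ x ∈ F) {p : K[X]}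
    (hp : p ≠ 0) : p.eval₂ φ T ≠ 0 := by
  intro h0
  let φ' : K →+* F := φ.codRestrict F hφ
  have e : p.eval₂ φ T = aeval T (p.map φ') := by
    rw [aeval_def, eval₂_map]
    rfl
  rw [e] at h0
  have hp' : p.map φ' ≠ 0 := by
    rw [Ne, Polynomial.map_eq_zero]
    exact hp
  have halg : IsAlgebraic F T := ⟨p.map φ', hp', h0⟩
  have hint : IsIntegral F T := halg.isIntegral
  have h1 : (minpoly F T).degree = 1 :=
    IsAlgClosed.degree_eq_one_of_irreducible F (minpoly.irreducible hint)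
  obtain ⟨y, hy⟩ := minpoly.mem_range_of_degree_eq_one F T h1
  apply hT
  rw [← hy]
  exact y.2

/-- one step -/
theorem embed_step {Om : Type} [Field Om] (F F' : Subfield Om) (hFF' : F ≤ F')
    [IsAlgClosed F] [IsAlgClosed F'] {T : Om} (hT' : T ∈ F') (hT : T ∉ F)
    (K : Subfield Om) (φ : K →+* Om) (hφ : ∀ x, φ x ∈ F) (b : Om) :
    ∃ (K' : Subfield Om) (hK : K ≤ K') (ψ : K' →+* Om), b ∈ K' ∧
      (∀ x : K, ψ (Subfield.inclusion hK x) = φ x) ∧ ∀ x, ψ x ∈ F' := by
  let φ' : K →+* F' := φ.codRestrict F' (fun x => hFF' (hφ x))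
  let _ : Algebra K F' := φ'.toAlgebra
  have hφ' : ∀ x : K, ((algebraMap K F' x : F') : Om) = φ x := fun _ => rfl
  -- a homomorphism of the field generated by `b`
  have key : ∃ ψ : K⟮b⟯ →ₐ[K] F', True := by
    by_cases hb : IsAlgebraic K b
    · have : Algebra.IsAlgebraic K K⟮b⟯ := isAlgebraic_adjoin_simple hb.isIntegral
      exact ⟨IsAlgClosed.lift, trivial⟩
    · have hb' : Transcendental K b := hb
      have hTt : Transcendental K (⟨T, hT'⟩ : F') := by
        rintro ⟨p, hp, hpT⟩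
        apply transc_of_not_mem F hT φ hφ hp
        have h1 := congrArg (F'.subtype) hpT
        rw [aeval_def, hom_eval₂, map_zero] at h1
        exact h1
      exact ⟨(K⟮(⟨T, hT'⟩ : F')⟯.val.comp (RatFunc.algEquivOfTranscendental _ hTt).toAlgHom).comp
        (RatFunc.algEquivOfTranscendental b hb').symm.toAlgHom, trivial⟩
  obtain ⟨ψ, -⟩ := key
  have hle : K ≤ K⟮b⟯.toSubfield := by
    intro x hx
    exact K⟮b⟯.algebraMap_mem ⟨x, hx⟩
  let ψ' : K⟮b⟯.toSubfield →+* Om := F'.subtype.comp ψ.toRingHom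
  refine ⟨K⟮b⟯.toSubfield, hle, ψ', mem_adjoin_simple_self K b, ?_, fun x => (ψ x).2⟩
  intro x
  have h1 : ψ' (Subfield.inclusion hle x) = ((ψ (algebraMap K K⟮b⟯ x) : F') : Om) := rfl
  rw [h1, ψ.commutes, hφ']

/-- a chain -/
theorem embed_chain {Om : Type} [Field Om] (F : ℕ → Subfield Om) (hF : ∀ j, F j ≤ F (j + 1))
    [∀ j, IsAlgClosed (F j)] (hT : ∀ j, ∃ T ∈ F (j + 1), T ∉ F j) (b : ℕ → Om) (m : ℕ) :
    ∃ (K : Subfield Om) (hK : F 0 ≤ K) (ψ : K →+* Om), (∀ i < m, b i ∈ K) ∧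
      (∀ x : F 0, ψ (Subfield.inclusion hK x) = x) ∧ ∀ x, ψ x ∈ F m := by
  induction m with
  | zero =>
    exact ⟨F 0, le_rfl, (F 0).subtype, by simp, fun x => rfl, fun x => x.2⟩
  | succ m ih =>
    obtain ⟨K, hK, ψ, h1, h2, h3⟩ := ih
    obtain ⟨T, hT1, hT2⟩ := hT m
    obtain ⟨K', hK', ψ', hb, h4, h5⟩ := embed_step (F m) (F (m + 1)) (hF m) hT1 hT2 K ψ h3 (b m)
    refine ⟨K', hK.trans hK', ψ', ?_, ?_, h5⟩
    · intro i hi
      rcases Nat.lt_succ_iff_lt_or_eq.1 hi with h | h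
      · exact hK' (h1 i h)
      · rw [h]; exact hb
    · intro x
      have := h4 (Subfield.inclusion hK x)
      rw [h2] at this
      exact this

end Pool.Agent.Helper85.GAP
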