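import Pool.Agent.Helper85.GAP.Bd

/-!
Factorisations with bounded integer combinations of algebraic numbers.
-/

set_option autoImplicit false
open scoped Classical

namespace Pool.Agent.Helper85.GAP

open NumberField

lemma lin_bound {E : IntermediateField ℚ ℂ} {B : ℝ} {r : ℕ} (α : Fin r → ℂ)
    (hα : ∀ i, BdIn E B (α i)) (hB : 1 ≤ B) :
    ∃ M : ℕ, 0 < M ∧ (M : ℝ) ≤ B ^ r ∧ ∀ x : Fin r → ℤ, ∃ z : 𝓞 E,
      ((z : E) : ℂ) = M * ∑ i, (x i : ℂ) * α i ∧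
      ∀ H : ℝ, (∀ i, |(x i : ℝ)| ≤ H) → ∀ σ : E →+* ℂ, ‖σ (z : E)‖ ≤ B ^ r * (r * (H * B)) := by
  choose m hm hmB hi using fun i => (hα i).den
  refine ⟨∏ i, m i, Finset.prod_pos fun i _ => hm i, ?_, ?_⟩
  · push_cast
    calc ∏ i : Fin r, (m i : ℝ) ≤ ∏ i : Fin r, B :=
          Finset.prod_le_prod (fun i _ => Nat.cast_nonneg _) fun i _ => hmB i
      _ = B ^ r := by rw [Finset.prod_const, Finset.card_univ, Fintype.card_fin]
  · intro x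
    have hmem : ∑ i, (x i : ℂ) * α i ∈ E :=
      sum_mem fun i _ => E.mul_mem (intCast_mem E (x i)) (hα i).mem
    have hint : IsIntegral ℤ (((∏ i, m i : ℕ) : ℂ) * ∑ i, (x i : ℂ) * α i) := by
      rw [Finset.mul_sum]
      refine IsIntegral.sum _ fun i _ => ?_
      have e : ((∏ i, m i : ℕ) : ℂ) * ((x i : ℂ) * α i) =
          (((∏ j ∈ Finset.univ.erase i, m j : ℕ) : ℤ) * x i : ℤ) * ((m i : ℂ) * α i) := by
        rw [← Finset.mul_prod_erase Finset.univ m (Finset.mem_univ i)]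
        push_cast
        ring
      rw [e]
      exact (isIntegral_algebraMap (R := ℤ) (A := ℂ)
        (x := (((∏ j ∈ Finset.univ.erase i, m j : ℕ) : ℤ) * x i : ℤ))).mul (hi i)
    obtain ⟨z, hz⟩ := BdIn.exists_int hmem hint
    refine ⟨z, hz, ?_⟩
    intro H hH σ
    have e1 : (z : E) = ((∏ i, m i : ℕ) : E) * ∑ i, ((x i : ℤ) : E) * ⟨α i, (hα i).mem⟩ := by
      apply Subtype.ext
      rw [hz]
      push_cast
      rfl
    rw [e1, map_mul, map_natCast, map_sum, norm_mul, Complex.norm_natCast]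
    have h1 : ((∏ i, m i : ℕ) : ℝ) ≤ B ^ r := by
      push_cast
      calc ∏ i : Fin r, (m i : ℝ) ≤ ∏ i : Fin r, B :=
            Finset.prod_le_prod (fun i _ => Nat.cast_nonneg _) fun i _ => hmB i
        _ = B ^ r := by rw [Finset.prod_const, Finset.card_univ, Fintype.card_fin]
    apply mul_le_mul h1 _ (norm_nonneg _) (by positivity)
    refine (norm_sum_le _ _).trans ?_
    calc ∑ i : Fin r, ‖σ (((x i : ℤ) : E) * ⟨α i, (hα i).mem⟩)‖ ≤ ∑ i : Fin r, H * B := by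
          apply Finset.sum_le_sum
          intro i _
          rw [map_mul, map_intCast, norm_mul, Complex.norm_intCast]
          exact mul_le_mul (hH i) ((hα i).conj σ) (norm_nonneg _) ((abs_nonneg _).trans (hH i))
      _ = r * (H * B) := by
          rw [Finset.sum_const, Finset.card_univ, Fintype.card_fin, nsmul_eq_mul]

/-- The count in a number field. -/
theorem nf_count {D : ℕ} {A δ : ℝ}
    (hA : ∀ (K : Type) [Field K] [NumberField K], Module.finrank ℚ K ≤ D →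
      ∀ X : ℝ, 1 ≤ X → ∀ (T : 𝓞 K), T ≠ 0 → ∀ Z : Finset (𝓞 K),
      (∀ z ∈ Z, ∃ y : 𝓞 K, z * y = T ∧ ∀ ψ : K →+* ℂ, ‖ψ (y : K)‖ ≤ X) →
      (∀ z ∈ Z, ∀ ψ : K →+* ℂ, ‖ψ (z : K)‖ ≤ X) → (Z.card : ℝ) ≤ A * X ^ δ)
    (hA0 : 0 ≤ A)
    {E : IntermediateField ℚ ℂ} [FiniteDimensional ℚ E] (hE : Module.finrank ℚ E ≤ D)
    {B : ℝ} (hB : 1 ≤ B) {r : ℕ} (α γ : Fin r → ℂ) (hα : ∀ i, BdIn E B (α i))
    (hγ : ∀ i, BdIn E B (γ i)) {H : ℝ} (V : Finset ((Fin r → ℤ) × (Fin r → ℤ)))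
    (hV : ∀ p ∈ V, ∀ i, |(p.1 i : ℝ)| ≤ H ∧ |(p.2 i : ℝ)| ≤ H)
    (hprod : ∀ p ∈ V, ∀ q ∈ V, (∑ i, (p.1 i : ℂ) * α i) * (∑ i, (p.2 i : ℂ) * γ i) =
      (∑ i, (q.1 i : ℂ) * α i) * (∑ i, (q.2 i : ℂ) * γ i))
    (hne : ∀ p ∈ V, (∑ i, (p.1 i : ℂ) * α i) * (∑ i, (p.2 i : ℂ) * γ i) ≠ 0)
    (hinj : ∀ p ∈ V, ∀ q ∈ V, ∑ i, (p.1 i : ℂ) * α i = ∑ i, (q.1 i : ℂ) * α i → p = q)
    {X : ℝ} (hX : 1 ≤ X) (hX' : B ^ r * (r * (H * B)) ≤ X) :
    (V.card : ℝ) ≤ A * X ^ δ := by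
  have hNF : NumberField E := { to_charZero := inferInstance, to_finiteDimensional := inferInstance }
  rcases V.eq_empty_or_nonempty with he | ⟨p0, hp0⟩
  · rw [he]
    simp only [Finset.card_empty, Nat.cast_zero]
    positivity
  obtain ⟨M, hM, hMB, hz⟩ := lin_bound α hα hB
  obtain ⟨M', hM', hMB', hy⟩ := lin_bound γ hγ hB
  choose z hz1 hz2 using hz
  choose y hy1 hy2 using hy
  have hMC : (M : ℂ) ≠ 0 := by exact_mod_cast hM.ne'
  have hMC' : (M' : ℂ) ≠ 0 := by exact_mod_cast hM'.ne'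
  have hmul : ∀ p : (Fin r → ℤ) × (Fin r → ℤ), (((z p.1 * y p.2 : 𝓞 E) : E) : ℂ) =
      M * M' * ((∑ i, (p.1 i : ℂ) * α i) * (∑ i, (p.2 i : ℂ) * γ i)) := by
    intro p
    have e : (((z p.1 * y p.2 : 𝓞 E) : E) : ℂ) = ((z p.1 : E) : ℂ) * ((y p.2 : E) : ℂ) := rfl
    rw [e, hz1, hy1]
    ring
  have hcoe : Function.Injective (fun x : 𝓞 E => ((x : E) : ℂ)) := fun a b h =>
    RingOfIntegers.ext (Subtype.ext h)
  have hzinj : Set.InjOn (fun p : (Fin r → ℤ) × (Fin r → ℤ) => z p.1) V := by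
    intro p hp q hq hpq
    apply hinj p hp q hq
    have h1 : ((z p.1 : E) : ℂ) = ((z q.1 : E) : ℂ) := congrArg (fun x : 𝓞 E => ((x : E) : ℂ)) hpq
    rw [hz1, hz1] at h1
    exact mul_left_cancel₀ hMC h1
  rw [← Finset.card_image_of_injOn hzinj]
  apply hA E hE X hX (z p0.1 * y p0.2)
  · intro h
    have h1 := hmul p0
    rw [h] at h1
    have h2 : (M : ℂ) * M' * ((∑ i, (p0.1 i : ℂ) * α i) * (∑ i, (p0.2 i : ℂ) * γ i)) = 0 := by
      rw [← h1]; simp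
    exact mul_ne_zero (mul_ne_zero hMC hMC') (hne p0 hp0) h2
  · intro w hw
    rw [Finset.mem_image] at hw
    obtain ⟨p, hp, rfl⟩ := hw
    refine ⟨y p.2, ?_, fun ψ => (hy2 p.2 H (fun i => (hV p hp i).2) ψ).trans hX'⟩
    apply hcoe
    simp only
    rw [hmul, hmul, hprod p hp p0 hp0]
  · intro w hw ψ
    rw [Finset.mem_image] at hw
    obtain ⟨p, hp, rfl⟩ := hw
    exact (hz2 p.1 H (fun i => (hV p hp i).1) ψ).trans hX'

end Pool.Agent.Helper85.GAP
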