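import Pool.Agent.Helper85.GAP.Fld
import Pool.Agent.Helper85.GAP.Embed
import Pool.Agent.Helper85.GAP.NF

/-!
Factorisations in generalised arithmetic progressions.
-/

set_option autoImplicit false
open scoped Classical

namespace Pool.Agent.Helper85.GAP

open Filter

lemma transfer {G : ℕ → ℕ} {hG : ∀ k, 2 ≤ G k} {K : Subfield Om} (hK : FF G hG ≤ K)
    (ψ : K →+* Om) (hψ0 : ∀ x : FF G hG, ψ (Subfield.inclusion hK x) = x) {r : ℕ}
    (a α : Fin r → ℕ → ℂ) (ha : ∀ i, ((a i : ℕ → ℂ) : Om) ∈ K)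
    (hα : ∀ i, ((α i : ℕ → ℂ) : Om) = ψ ⟨_, ha i⟩) (p : ℕ → Fin r → ℤ)
    (hp : ∀ᶠ k in (hyperfilter ℕ : Filter ℕ), ∀ i, |(p k i : ℝ)| ≤ G k) :
    ∃ h : (((fun k => ∑ i, (p k i : ℂ) * a i k) : ℕ → ℂ) : Om) ∈ K,
      ψ ⟨_, h⟩ = ((fun k => ∑ i, (p k i : ℂ) * α i k : ℕ → ℂ) : Om) := by
  let R := Germ.coeRingHom (R := ℂ) (hyperfilter ℕ : Filter ℕ)
  have hξ : ∀ i, ((fun k => (p k i : ℂ) : ℕ → ℂ) : Om) ∈ FF G hG := fun i =>
    ⟨_, rfl, InF.intCast hG (fun k => p k i) (hp.mono fun k hk => hk i)⟩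
  have e : ∀ β : Fin r → ℕ → ℂ, (((fun k => ∑ i, (p k i : ℂ) * β i k) : ℕ → ℂ) : Om) =
      ∑ i, ((fun k => (p k i : ℂ) : ℕ → ℂ) : Om) * ((β i : ℕ → ℂ) : Om) := by
    intro β
    have e1 : (fun k => ∑ i, (p k i : ℂ) * β i k) = ∑ i, (fun k => (p k i : ℂ)) * β i := by
      funext k
      rw [Finset.sum_apply]
      rfl
    rw [e1]
    exact map_sum R _ _
  have h : (((fun k => ∑ i, (p k i : ℂ) * a i k) : ℕ → ℂ) : Om) ∈ K := by
    rw [e a]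
    exact sum_mem fun i _ => K.mul_mem (hK (hξ i)) (ha i)
  refine ⟨h, ?_⟩
  have e2 : (⟨_, h⟩ : K) = ∑ i, Subfield.inclusion hK ⟨_, hξ i⟩ * ⟨_, ha i⟩ := by
    apply Subtype.ext
    push_cast
    exact e a
  rw [e2, map_sum, e α]
  refine Finset.sum_congr rfl fun i _ => ?_
  rw [map_mul, hψ0, hα]

/-- Factorisations in generalised arithmetic progressions (M.-C. Chang): there are at most
`H ^ δ` factorisations of `τ ≠ 0` into two factors, integer combinations with coefficients at most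
`H` of `r` complex numbers. -/
theorem gap_factorisations (r : ℕ) (δ : ℝ) (hδ : 0 < δ) :
    ∃ H0 : ℕ, ∀ H : ℕ, H0 ≤ H → ∀ (a c : Fin r → ℂ) (τ : ℂ), τ ≠ 0 →
      ∀ V : Finset ((Fin r → ℤ) × (Fin r → ℤ)),
      (∀ p ∈ V, ∀ i, |(p.1 i : ℝ)| ≤ H ∧ |(p.2 i : ℝ)| ≤ H) →
      (∀ p ∈ V, (∑ i, (p.1 i : ℂ) * a i) * (∑ i, (p.2 i : ℂ) * c i) = τ) →
      (∀ p ∈ V, ∀ q ∈ V, ∑ i, (p.1 i : ℂ) * a i = ∑ i, (q.1 i : ℂ) * a i → p = q) →
      (V.card : ℝ) ≤ (H : ℝ) ^ δ := by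
  by_contra hcon
  push Not at hcon
  choose A hA0 hA using fun D δ hδ => count_uniform D δ hδ
  let dk : ℕ → ℝ := fun k => δ / (2 * ((k : ℝ) + 1) ^ (2 * r + 1))
  have hdk : ∀ k, 0 < dk k := fun k => by positivity
  let R : ℕ → ℝ := fun k => ∑ D ∈ Finset.range (k + 1), A D (dk k) (hdk k)
  have hN : ∀ k, ∃ N : ℕ, ∀ H : ℕ, N ≤ H → R k ≤ (H : ℝ) ^ (δ / 2) := by
    intro k
    have h := (tendsto_rpow_atTop (half_pos hδ)).comp tendsto_natCast_atTop_atTop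
    exact eventually_atTop.1 (h.eventually_ge_atTop (R k))
  choose N hN using hN
  choose H hH a c τ hτ V hV hVp hVi hVc using fun k => hcon (max (N k) 2)
  have hH2 : ∀ k, 2 ≤ H k := fun k => (le_max_right _ _).trans (hH k)
  have hHN : ∀ k, N k ≤ H k := fun k => (le_max_left _ _).trans (hH k)
  let G : ℕ → ℕ → ℕ := fun j k => H k ^ ((k + 1) ^ j)
  have hHG : ∀ j k, H k ≤ G j k := fun j k => Nat.le_self_pow (by positivity) _
  have hG : ∀ j k, 2 ≤ G j k := fun j k => (hH2 k).trans (hHG j k)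
  have hGs : ∀ j k, G j k ^ (k + 1) = G (j + 1) k := by
    intro j k
    simp only [G]
    rw [← pow_mul, ← pow_succ]
  have hG0 : ∀ k, G 0 k = H k := fun k => by simp [G]
  let F : ℕ → Subfield Om := fun j => FF (G j) (hG j)
  have hF : ∀ j, F j ≤ F (j + 1) := fun j => FF_mono fun k => by
    rw [← hGs j k]
    exact Nat.le_self_pow (by omega) _
  have hT : ∀ j, ∃ T ∈ F (j + 1), T ∉ F j := fun j =>
    ⟨_, T_mem (hG (j + 1)), T_not_mem (hG j) (fun k => (hGs j k).le)⟩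
  have : ∀ j, IsAlgClosed (F j) := fun j => FF_algClosed _ _
  let b : ℕ → Om := fun j => if h : j < r then ((fun k => a k ⟨j, h⟩ : ℕ → ℂ) : Om) else
    if h' : j - r < r then ((fun k => c k ⟨j - r, h'⟩ : ℕ → ℂ) : Om) else 0
  obtain ⟨K, hK, ψ, hb, hψ0, hψF⟩ := embed_chain F hF hT b (2 * r)
  have haK : ∀ i : Fin r, ((fun k => a k i : ℕ → ℂ) : Om) ∈ K := by
    intro i
    have h1 := hb i (by have := i.2; omega)
    simp only [b] at h1
    rw [dif_pos i.2] at h1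
    exact h1
  have hcK : ∀ i : Fin r, ((fun k => c k i : ℕ → ℂ) : Om) ∈ K := by
    intro i
    have h1 := hb (i + r) (by have := i.2; omega)
    simp only [b] at h1
    rw [dif_neg (by omega), dif_pos (by have := i.2; omega)] at h1
    have h2 : (⟨(i : ℕ) + r - r, by have := i.2; omega⟩ : Fin r) = i := by
      apply Fin.ext
      simp
    rw [h2] at h1
    exact h1
  choose α hα hαF using fun i => hψF ⟨_, haK i⟩
  choose γ hγ hγF using fun i => hψF ⟨_, hcK i⟩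
  have hbd : ∀ k, ∀ p ∈ V k, ∀ i, |(p.1 i : ℝ)| ≤ G 0 k ∧ |(p.2 i : ℝ)| ≤ G 0 k := by
    intro k p hp i
    rw [hG0]
    exact hV k p hp i
  -- the three transfers
  have lift : ∀ p : ℕ → (Fin r → ℤ) × (Fin r → ℤ),
      (∀ᶠ k in (hyperfilter ℕ : Filter ℕ), p k ∈ V k) →
      ∃ (h : (((fun k => ∑ i, ((p k).1 i : ℂ) * a k i) : ℕ → ℂ) : Om) ∈ K)
        (h' : (((fun k => ∑ i, ((p k).2 i : ℂ) * c k i) : ℕ → ℂ) : Om) ∈ K),
        ψ ⟨_, h⟩ = ((fun k => ∑ i, ((p k).1 i : ℂ) * α i k : ℕ → ℂ) : Om) ∧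
        ψ ⟨_, h'⟩ = ((fun k => ∑ i, ((p k).2 i : ℂ) * γ i k : ℕ → ℂ) : Om) := by
    intro p hp
    obtain ⟨h, h1⟩ := transfer hK ψ hψ0 (fun i k => a k i) α haK hα (fun k => (p k).1)
      (hp.mono fun k hk i => (hbd k _ hk i).1)
    obtain ⟨h', h1'⟩ := transfer hK ψ hψ0 (fun i k => c k i) γ hcK hγ (fun k => (p k).2)
      (hp.mono fun k hk i => (hbd k _ hk i).2)
    exact ⟨h, h', h1, h1'⟩
  have C1 : ∀ᶠ k in (hyperfilter ℕ : Filter ℕ), ∀ p ∈ V k, ∀ q ∈ V k,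
      (∑ i, (p.1 i : ℂ) * α i k) * (∑ i, (p.2 i : ℂ) * γ i k) =
      (∑ i, (q.1 i : ℂ) * α i k) * (∑ i, (q.2 i : ℂ) * γ i k) := by
    by_contra hc
    rw [← Ultrafilter.eventually_not] at hc
    have hc2 : ∀ᶠ k in (hyperfilter ℕ : Filter ℕ),
        ∃ x : ((Fin r → ℤ) × (Fin r → ℤ)) × ((Fin r → ℤ) × (Fin r → ℤ)), x.1 ∈ V k ∧ x.2 ∈ V k ∧
        (∑ i, (x.1.1 i : ℂ) * α i k) * (∑ i, (x.1.2 i : ℂ) * γ i k) ≠
        (∑ i, (x.2.1 i : ℂ) * α i k) * (∑ i, (x.2.2 i : ℂ) * γ i k) := by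
      refine hc.mono fun k hk => ?_
      push Not at hk
      obtain ⟨p, hp, q, hq, h⟩ := hk
      exact ⟨(p, q), hp, hq, h⟩
    obtain ⟨f, hf⟩ := hc2.choice
    obtain ⟨h1, h2, h3, h4⟩ := lift (fun k => (f k).1) (hf.mono fun k hk => hk.1)
    obtain ⟨h1', h2', h3', h4'⟩ := lift (fun k => (f k).2) (hf.mono fun k hk => hk.2.1)
    have e1 : (⟨_, h1⟩ : K) * ⟨_, h2⟩ = ⟨_, h1'⟩ * ⟨_, h2'⟩ := by
      apply Subtype.ext
      show ((_ : ℕ → ℂ) : Om) * ((_ : ℕ → ℂ) : Om) = ((_ : ℕ → ℂ) : Om) * ((_ : ℕ → ℂ) : Om)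
      rw [← Germ.coe_mul, ← Germ.coe_mul, Germ.coe_eq]
      refine hf.mono fun k hk => ?_
      simp only [Pi.mul_apply]
      rw [hVp k _ hk.1, hVp k _ hk.2.1]
    have e2 := congrArg ψ e1
    rw [map_mul, map_mul, h3, h4, h3', h4', ← Germ.coe_mul, ← Germ.coe_mul, Germ.coe_eq] at e2
    obtain ⟨k, hk1, hk2⟩ := (hf.and e2).exists
    exact hk1.2.2 hk2
  have C2 : ∀ᶠ k in (hyperfilter ℕ : Filter ℕ), ∀ p ∈ V k, ∀ q ∈ V k,
      ∑ i, (p.1 i : ℂ) * α i k = ∑ i, (q.1 i : ℂ) * α i k → p = q := by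
    by_contra hc
    rw [← Ultrafilter.eventually_not] at hc
    have hc2 : ∀ᶠ k in (hyperfilter ℕ : Filter ℕ),
        ∃ x : ((Fin r → ℤ) × (Fin r → ℤ)) × ((Fin r → ℤ) × (Fin r → ℤ)), x.1 ∈ V k ∧ x.2 ∈ V k ∧
        ∑ i, (x.1.1 i : ℂ) * α i k = ∑ i, (x.2.1 i : ℂ) * α i k ∧ x.1 ≠ x.2 := by
      refine hc.mono fun k hk => ?_
      push Not at hk
      obtain ⟨p, hp, q, hq, h⟩ := hk
      exact ⟨(p, q), hp, hq, h⟩
    obtain ⟨f, hf⟩ := hc2.choice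
    obtain ⟨h1, h2, h3, h4⟩ := lift (fun k => (f k).1) (hf.mono fun k hk => hk.1)
    obtain ⟨h1', h2', h3', h4'⟩ := lift (fun k => (f k).2) (hf.mono fun k hk => hk.2.1)
    have e1 : ψ ⟨_, h1⟩ = ψ ⟨_, h1'⟩ := by
      rw [h3, h3', Germ.coe_eq]
      exact hf.mono fun k hk => hk.2.2.1
    have e2 := congrArg Subtype.val (ψ.injective e1)
    simp only at e2
    rw [Germ.coe_eq] at e2
    obtain ⟨k, hk1, hk2⟩ := (hf.and e2).exists
    exact hk1.2.2.2 (hVi k _ hk1.1 _ hk1.2.1 hk2)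
  have C3 : ∀ᶠ k in (hyperfilter ℕ : Filter ℕ), ∀ p ∈ V k,
      (∑ i, (p.1 i : ℂ) * α i k) * (∑ i, (p.2 i : ℂ) * γ i k) ≠ 0 := by
    by_contra hc
    rw [← Ultrafilter.eventually_not] at hc
    have hc2 : ∀ᶠ k in (hyperfilter ℕ : Filter ℕ),
        ∃ x : (Fin r → ℤ) × (Fin r → ℤ), x ∈ V k ∧
        (∑ i, (x.1 i : ℂ) * α i k) * (∑ i, (x.2 i : ℂ) * γ i k) = 0 := by
      refine hc.mono fun k hk => ?_
      push Not at hk
      exact hk
    obtain ⟨f, hf⟩ := hc2.choice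
    obtain ⟨h1, h2, h3, h4⟩ := lift f (hf.mono fun k hk => hk.1)
    have e1 : ψ (⟨_, h1⟩ * ⟨_, h2⟩) = 0 := by
      rw [map_mul, h3, h4, ← Germ.coe_mul]
      show _ = (((0 : ℕ → ℂ)) : Om)
      rw [Germ.coe_eq]
      exact hf.mono fun k hk => hk.2
    rw [map_eq_zero] at e1
    have e2 := congrArg Subtype.val e1
    have e3 : (((fun k => ∑ i, ((f k).1 i : ℂ) * a k i) : ℕ → ℂ) : Om) *
        (((fun k => ∑ i, ((f k).2 i : ℂ) * c k i) : ℕ → ℂ) : Om) = ((0 : ℕ → ℂ) : Om) := e2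
    rw [← Germ.coe_mul, Germ.coe_eq] at e3
    obtain ⟨k, hk1, hk2⟩ := (hf.and e3).exists
    simp only [Pi.mul_apply, Pi.zero_apply] at hk2
    rw [hVp k _ hk1.1] at hk2
    exact hτ k hk2
  -- common bounds
  choose Dα hDα using hαF
  choose Dγ hDγ using hγF
  let D := ∑ i, Dα i + ∑ i, Dγ i + 1
  have C4 : ∀ᶠ k in (hyperfilter ℕ : Filter ℕ), ∀ i, Bd D ((G (2 * r) k : ℝ) ^ D) (α i k) := by
    rw [eventually_all]
    intro i
    refine (hDα i).mono fun k hk => InF.mono_deg (hG (2 * r)) ?_ hk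
    have := Finset.single_le_sum (f := Dα) (fun _ _ => Nat.zero_le _) (Finset.mem_univ i)
    omega
  have C5 : ∀ᶠ k in (hyperfilter ℕ : Filter ℕ), ∀ i, Bd D ((G (2 * r) k : ℝ) ^ D) (γ i k) := by
    rw [eventually_all]
    intro i
    refine (hDγ i).mono fun k hk => InF.mono_deg (hG (2 * r)) ?_ hk
    have := Finset.single_le_sum (f := Dγ) (fun _ _ => Nat.zero_le _) (Finset.mem_univ i)
    omega
  let D1 := D ^ r * D ^ r
  let D2 := D * r + (r + (1 + D))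
  have C6 : ∀ᶠ k in (hyperfilter ℕ : Filter ℕ), max D1 D2 ≤ k :=
    (eventually_ge_atTop _).filter_mono Nat.hyperfilter_le_atTop
  obtain ⟨k, c1, c2, c3, c4, c5, c6⟩ :=
    (C1.and (C2.and (C3.and (C4.and (C5.and C6))))).exists
  obtain ⟨E1, f1, d1, g1⟩ := Bd.common (fun i => α i k) c4
  obtain ⟨E2, f2, d2, g2⟩ := Bd.common (fun i => γ i k) c5
  have f3 : FiniteDimensional ℚ ↥(E1 ⊔ E2) := IntermediateField.finiteDimensional_sup E1 E2
  have d3 : Module.finrank ℚ ↥(E1 ⊔ E2) ≤ D1 :=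
    (IntermediateField.finrank_sup_le E1 E2).trans (Nat.mul_le_mul d1 d2)
  have hGk : (2 : ℝ) ≤ G (2 * r) k := by exact_mod_cast hG (2 * r) k
  have hGk1 : (1 : ℝ) ≤ G (2 * r) k := by linarith
  have hB : (1 : ℝ) ≤ (G (2 * r) k : ℝ) ^ D := one_le_pow₀ hGk1
  have hX : (1 : ℝ) ≤ (G (2 * r) k : ℝ) ^ D2 := one_le_pow₀ hGk1
  have hX' : ((G (2 * r) k : ℝ) ^ D) ^ r * (r * ((H k : ℝ) * (G (2 * r) k : ℝ) ^ D)) ≤
      (G (2 * r) k : ℝ) ^ D2 := by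
    have e1 : (r : ℝ) ≤ (G (2 * r) k : ℝ) ^ r := by
      calc (r : ℝ) ≤ 2 ^ r := by exact_mod_cast (Nat.lt_two_pow_self (n := r)).le
        _ ≤ _ := pow_le_pow_left₀ (by norm_num) hGk r
    have e2 : (H k : ℝ) ≤ G (2 * r) k := by exact_mod_cast hHG (2 * r) k
    calc ((G (2 * r) k : ℝ) ^ D) ^ r * (r * ((H k : ℝ) * (G (2 * r) k : ℝ) ^ D))
        ≤ ((G (2 * r) k : ℝ) ^ D) ^ r * ((G (2 * r) k : ℝ) ^ r *
          ((G (2 * r) k : ℝ) * (G (2 * r) k : ℝ) ^ D)) := by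
          apply mul_le_mul_of_nonneg_left _ (by positivity)
          apply mul_le_mul e1 _ (by positivity) (by positivity)
          exact mul_le_mul_of_nonneg_right e2 (by positivity)
      _ = (G (2 * r) k : ℝ) ^ D2 := by
          show _ = (G (2 * r) k : ℝ) ^ (D * r + (r + (1 + D)))
          rw [← pow_mul, pow_add _ (D * r), pow_add _ r, pow_add _ 1 D, pow_one]
  have hcount := nf_count (hA D1 (dk k) (hdk k)) (hA0 D1 (dk k) (hdk k)).le d3 hB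
    (fun i => α i k) (fun i => γ i k) (fun i => (g1 i).mono le_sup_left)
    (fun i => (g2 i).mono le_sup_right) (V k) (hV k) c1 c3 c2 hX hX'
  have hHk : (2 : ℝ) ≤ H k := by exact_mod_cast hH2 k
  have hHk1 : (1 : ℝ) ≤ H k := by linarith
  have hHk0 : (0 : ℝ) < H k := by linarith
  have hA1 : A D1 (dk k) (hdk k) ≤ (H k : ℝ) ^ (δ / 2) := by
    refine le_trans ?_ (hN k (H k) (hHN k))
    apply Finset.single_le_sum (f := fun D => A D (dk k) (hdk k))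
      (fun D _ => (hA0 D (dk k) (hdk k)).le)
    rw [Finset.mem_range]
    have := (le_max_left D1 D2).trans c6
    omega
  have hA2 : ((G (2 * r) k : ℝ) ^ D2) ^ (dk k) ≤ (H k : ℝ) ^ (δ / 2) := by
    have e1 : ((G (2 * r) k : ℝ) ^ D2) ^ (dk k) =
        (H k : ℝ) ^ ((((k : ℝ) + 1) ^ (2 * r) * D2) * dk k) := by
      simp only [G]
      push_cast
      rw [← Real.rpow_natCast (H k : ℝ), ← Real.rpow_natCast ((H k : ℝ) ^ _), ← Real.rpow_mul hHk0.le,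
        ← Real.rpow_mul hHk0.le]
      push_cast
      rfl
    rw [e1]
    apply Real.rpow_le_rpow_of_exponent_le hHk1
    have e2 : (D2 : ℝ) ≤ (k : ℝ) + 1 := by
      have := (le_max_right D1 D2).trans c6
      exact_mod_cast this.trans (Nat.le_succ k)
    have hk0 : (0 : ℝ) < (k : ℝ) + 1 := by positivity
    calc (((k : ℝ) + 1) ^ (2 * r) * D2) * dk k
        ≤ (((k : ℝ) + 1) ^ (2 * r) * ((k : ℝ) + 1)) * dk k := by
          apply mul_le_mul_of_nonneg_right _ (hdk k).le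
          exact mul_le_mul_of_nonneg_left e2 (by positivity)
      _ = δ / 2 := by
          simp only [dk]
          rw [← pow_succ]
          field_simp
  have hfin : ((V k).card : ℝ) ≤ (H k : ℝ) ^ δ := by
    calc ((V k).card : ℝ) ≤ A D1 (dk k) (hdk k) * ((G (2 * r) k : ℝ) ^ D2) ^ (dk k) := hcount
      _ ≤ (H k : ℝ) ^ (δ / 2) * (H k : ℝ) ^ (δ / 2) :=
          mul_le_mul hA1 hA2 (by positivity) (by positivity)
      _ = (H k : ℝ) ^ δ := by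
          rw [← Real.rpow_add hHk0]
          congr 1
          ring
  exact absurd hfin (not_le.2 (hVc k))

end Pool.Agent.Helper85.GAP
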