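import Pool.Agent.Helper85.GAP.Chang
import Pool.Agent.Helper85.GAP.Robust

/-!
Points of generalised arithmetic progressions on circles, and low multiplicity distances.
-/

set_option autoImplicit false
open scoped Classical

namespace Pool.Agent.Helper85.GAP

open Pool.Agent.Helper85.LowMult Filter

/-- The plane as `ℂ`. -/
noncomputable def toC (v : EuclideanSpace ℝ (Fin 2)) : ℂ := ⟨v 0, v 1⟩

lemma toC_inj : Function.Injective toC := by
  intro v w h
  have h1 := congrArg Complex.re h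
  have h2 := congrArg Complex.im h
  simp only [toC] at h1 h2
  ext i
  fin_cases i
  · exact h1
  · exact h2

lemma toC_norm (v : EuclideanSpace ℝ (Fin 2)) :
    toC v * (starRingEnd ℂ) (toC v) = ((‖v‖ ^ 2 : ℝ) : ℂ) := by
  rw [Complex.mul_conj, EuclideanSpace.norm_eq, Real.sq_sqrt (by positivity)]
  congr 1
  simp [Complex.normSq_apply, toC, Fin.sum_univ_two, sq]

lemma toC_sum {r : ℕ} (x : Fin r → ℤ) (a : Fin r → EuclideanSpace ℝ (Fin 2)) :
    toC (∑ i, (x i : ℝ) • a i) = ∑ i, (x i : ℂ) * toC (a i) := by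
  apply Complex.ext
  · simp [toC, Complex.re_sum]
  · simp [toC, Complex.im_sum]

/-- A progression of rank `r` has at most `n ^ δ` elements on a circle with centre `0`. -/
theorem circle_count (r : ℕ) (C δ : ℝ) (hδ : 0 < δ) : ∃ N : ℕ, ∀ n : ℕ, N ≤ n →
    ∀ (a : Fin r → EuclideanSpace ℝ (Fin 2)) (d : ℝ), 0 < d →
    ∀ Z : Finset (EuclideanSpace ℝ (Fin 2)),
    (∀ v ∈ Z, ‖v‖ = d ∧ ∃ x : Fin r → ℤ, (∀ i, |(x i : ℝ)| ≤ (n : ℝ) ^ C) ∧
      v = ∑ i, (x i : ℝ) • a i) → (Z.card : ℝ) ≤ (n : ℝ) ^ δ := by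
  set C' := max C 1 with hC'
  have hC'1 : 1 ≤ C' := le_max_right _ _
  obtain ⟨H0, hH0⟩ := gap_factorisations r (δ / (C' + 1)) (by positivity)
  refine ⟨max H0 2, ?_⟩
  intro n hn a d hd Z hZ
  have hn2 : 2 ≤ n := (le_max_right _ _).trans hn
  have hnR : (2 : ℝ) ≤ n := by exact_mod_cast hn2
  have hn1 : (1 : ℝ) ≤ n := by linarith
  have hn0 : (0 : ℝ) < n := by linarith
  set H : ℕ := ⌈(n : ℝ) ^ C'⌉₊ with hH
  have hnH : n ≤ H := by
    have h1 : (n : ℝ) ≤ (n : ℝ) ^ C' := by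
      calc (n : ℝ) = (n : ℝ) ^ (1 : ℝ) := (Real.rpow_one _).symm
        _ ≤ _ := Real.rpow_le_rpow_of_exponent_le hn1 hC'1
    have h2 : (n : ℝ) ≤ (H : ℝ) := h1.trans (Nat.le_ceil _)
    exact_mod_cast h2
  have hHle : (H : ℝ) ≤ (n : ℝ) ^ (C' + 1) := by
    have h1 : (H : ℝ) ≤ (n : ℝ) ^ C' + 1 := (Nat.ceil_lt_add_one (by positivity)).le
    have h2 : (1 : ℝ) ≤ (n : ℝ) ^ C' := Real.one_le_rpow hn1 (by linarith)
    calc (H : ℝ) ≤ (n : ℝ) ^ C' + 1 := h1
      _ ≤ (n : ℝ) ^ C' * 2 := by linarith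
      _ ≤ (n : ℝ) ^ C' * n := mul_le_mul_of_nonneg_left hnR (by positivity)
      _ = (n : ℝ) ^ (C' + 1) := by rw [Real.rpow_add hn0, Real.rpow_one]
  choose! x hx using fun v hv => (hZ v hv).2
  let V : Finset ((Fin r → ℤ) × (Fin r → ℤ)) := Z.image (fun v => (x v, x v))
  have hxv : ∀ v ∈ Z, ∑ i, (x v i : ℂ) * toC (a i) = toC v := by
    intro v hv
    rw [← toC_sum, ← (hx v hv).2]
  have hxinj : Set.InjOn (fun v => (x v, x v)) (Z : Set (EuclideanSpace ℝ (Fin 2))) := by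
    intro v hv w hw h
    have h1 : x v = x w := (Prod.ext_iff.1 h).1
    apply toC_inj
    rw [← hxv v hv, ← hxv w hw, h1]
  have hcard : V.card = Z.card := Finset.card_image_of_injOn hxinj
  have hmain := hH0 H (((le_max_left _ _).trans hn).trans hnH) (fun i => toC (a i))
    (fun i => (starRingEnd ℂ) (toC (a i))) ((d ^ 2 : ℝ) : ℂ)
    (by
      rw [Ne, Complex.ofReal_eq_zero]
      positivity) V (by
      intro p hp i
      rw [Finset.mem_image] at hp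
      obtain ⟨v, hv, rfl⟩ := hp
      have h1 : |(x v i : ℝ)| ≤ H := by
        refine ((hx v hv).1 i).trans (le_trans ?_ (Nat.le_ceil _))
        exact Real.rpow_le_rpow_of_exponent_le hn1 (le_max_left _ _)
      exact ⟨h1, h1⟩) (by
      intro p hp
      rw [Finset.mem_image] at hp
      obtain ⟨v, hv, rfl⟩ := hp
      have h2 : ∑ i, (x v i : ℂ) * (starRingEnd ℂ) (toC (a i)) = (starRingEnd ℂ) (toC v) := by
        rw [← hxv v hv, map_sum]
        refine Finset.sum_congr rfl fun i _ => ?_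
        rw [map_mul, map_intCast]
      simp only
      rw [hxv v hv, h2, toC_norm, (hZ v hv).1]) (by
      intro p hp q hq h
      rw [Finset.mem_image] at hp hq
      obtain ⟨v, hv, rfl⟩ := hp
      obtain ⟨w, hw, rfl⟩ := hq
      simp only at h
      rw [hxv v hv, hxv w hw] at h
      rw [toC_inj h])
  rw [hcard] at hmain
  refine hmain.trans ?_
  calc (H : ℝ) ^ (δ / (C' + 1)) ≤ ((n : ℝ) ^ (C' + 1)) ^ (δ / (C' + 1)) :=
        Real.rpow_le_rpow (Nat.cast_nonneg _) hHle (by positivity)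
    _ = (n : ℝ) ^ δ := by
        rw [← Real.rpow_mul hn0.le]
        congr 1
        field_simp

/-- Union of the progressions. -/
def InProg (r : ℕ) (B : ℝ) {m : ℕ} (b : Fin m → EuclideanSpace ℝ (Fin 2))
    (a : Fin m → Fin r → EuclideanSpace ℝ (Fin 2)) (p : EuclideanSpace ℝ (Fin 2)) : Prop :=
  ∃ j : Fin m, ∃ x : Fin r → ℤ, (∀ i, |(x i : ℝ)| ≤ B) ∧ p = b j + ∑ i, (x i : ℝ) • a j i

/-- Difference vectors of given length of a set covered by `m` progressions. -/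
theorem diff_count (r : ℕ) (C δ : ℝ) (hC : 0 ≤ C) (hδ : 0 < δ) : ∃ N : ℕ, ∀ n : ℕ, N ≤ n →
    ∀ (m : ℕ) (b : Fin m → EuclideanSpace ℝ (Fin 2))
    (a : Fin m → Fin r → EuclideanSpace ℝ (Fin 2)) (P : Finset (EuclideanSpace ℝ (Fin 2))),
    (∀ p ∈ P, InProg r ((n : ℝ) ^ C) b a p) → ∀ d, (pairs P d).Nonempty →
    (((pairs P d).image (fun x => x.2 - x.1)).card : ℝ) ≤ (m : ℝ) ^ 2 * (n : ℝ) ^ δ := by
  obtain ⟨N, hN⟩ := circle_count (1 + (r + r)) C δ hδ
  refine ⟨N + 1, ?_⟩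
  intro n hn m b a P hP d hd
  have hn1 : (1 : ℝ) ≤ n := by exact_mod_cast (by omega : 1 ≤ n)
  have hd0 : 0 < d := by
    obtain ⟨x, hx⟩ := hd
    rw [mem_pairs] at hx
    rw [← hx.2.2.2]
    exact dist_pos.mpr hx.2.2.1
  set D := (pairs P d).image (fun x => x.2 - x.1) with hD
  -- the generators for the pair `(j, k)`
  let g : Fin m × Fin m → Fin (1 + (r + r)) → EuclideanSpace ℝ (Fin 2) := fun jk =>
    Fin.append (fun _ => b jk.2 - b jk.1) (Fin.append (a jk.2) (fun i => - a jk.1 i))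
  let Z : Fin m × Fin m → Finset (EuclideanSpace ℝ (Fin 2)) := fun jk =>
    D.filter (fun v => ∃ x : Fin (1 + (r + r)) → ℤ, (∀ i, |(x i : ℝ)| ≤ (n : ℝ) ^ C) ∧
      v = ∑ i, (x i : ℝ) • g jk i)
  have hDn : ∀ v ∈ D, ‖v‖ = d := by
    intro v hv
    rw [hD] at hv
    obtain ⟨x, hx, rfl⟩ := Finset.mem_image.1 hv
    rw [mem_pairs] at hx
    rw [← hx.2.2.2, dist_comm, dist_eq_norm]
  have hsub : D ⊆ Finset.univ.biUnion Z := by
    intro v hv
    rw [Finset.mem_biUnion]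
    have hv' := hv
    rw [hD] at hv'
    obtain ⟨⟨p, q⟩, hx, hpq⟩ := Finset.mem_image.1 hv'
    rw [mem_pairs] at hx
    obtain ⟨j, x, hxB, hp⟩ := hP p hx.1
    obtain ⟨k, y, hyB, hq⟩ := hP q hx.2.1
    refine ⟨(j, k), Finset.mem_univ _, ?_⟩
    rw [Finset.mem_filter]
    refine ⟨hv, Fin.append (fun _ => 1) (Fin.append y x), ?_, ?_⟩
    · intro i
      refine Fin.addCases (fun i => ?_) (fun i => ?_) i
      · rw [Fin.append_left, Int.cast_one, abs_one]
        exact Real.one_le_rpow hn1 hC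
      · rw [Fin.append_right]
        refine Fin.addCases (fun i => ?_) (fun i => ?_) i
        · rw [Fin.append_left]; exact hyB i
        · rw [Fin.append_right]; exact hxB i
    · simp only [g]
      rw [Fin.sum_univ_add, Fin.sum_univ_add]
      simp only [Fin.append_left, Fin.append_right, Finset.univ_unique, Fin.default_eq_zero,
        Finset.sum_singleton, Int.cast_one, one_smul, smul_neg, Finset.sum_neg_distrib]
      rw [← hpq]
      simp only
      rw [hp, hq]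
      abel
  have hZ : ∀ jk, ((Z jk).card : ℝ) ≤ (n : ℝ) ^ δ := by
    intro jk
    apply hN n (by omega) (g jk) d hd0
    intro v hv
    rw [Finset.mem_filter] at hv
    exact ⟨hDn v hv.1, hv.2⟩
  calc (D.card : ℝ) ≤ ((Finset.univ.biUnion Z).card : ℝ) := by
        exact_mod_cast Finset.card_le_card hsub
    _ ≤ ((∑ jk, (Z jk).card : ℕ) : ℝ) := by exact_mod_cast Finset.card_biUnion_le
    _ = ∑ jk, ((Z jk).card : ℝ) := by push_cast; rfl
    _ ≤ ∑ _jk : Fin m × Fin m, (n : ℝ) ^ δ := Finset.sum_le_sum fun jk _ => hZ jk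
    _ = (m : ℝ) ^ 2 * (n : ℝ) ^ δ := by
        rw [Finset.sum_const, Finset.card_univ, Fintype.card_prod, Fintype.card_fin, nsmul_eq_mul]
        push_cast
        ring

/-- The numerical part. -/
theorem low_of_few_vectors (ε : ℝ) (hε : 0 < ε) (hε1 : ε ≤ 1) : ∃ N : ℕ, ∀ n : ℕ, N ≤ n →
    ∀ P P₀ : Finset (EuclideanSpace ℝ (Fin 2)), P.card = n → P₀ ⊆ P →
    ((P.card - P₀.card : ℕ) : ℝ) ≤ (n : ℝ) ^ (1 - ε) →
    (∀ d, (pairs P₀ d).Nonempty →
      (((pairs P₀ d).image (fun x => x.2 - x.1)).card : ℝ) ≤ (n : ℝ) ^ (3 * ε / 8)) →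
    (n : ℝ) ^ (1 - ε) ≤ ((low P).card : ℝ) := by
  -- `n ^ (ε/4) ≥ 100`
  have h100 : ∃ N : ℕ, ∀ n : ℕ, N ≤ n → (100 : ℝ) ≤ (n : ℝ) ^ (ε / 4) := by
    have h := (tendsto_rpow_atTop (show 0 < ε / 4 by positivity)).comp tendsto_natCast_atTop_atTop
    exact eventually_atTop.1 (h.eventually_ge_atTop 100)
  obtain ⟨N, hN⟩ := h100
  refine ⟨N + 2, ?_⟩
  intro n hn P P₀ hP hP₀ hexc hM
  have hn1 : (1 : ℝ) ≤ n := by exact_mod_cast (by omega : 1 ≤ n)
  have hn0 : (0 : ℝ) < n := by linarith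
  have hp := hN n (by omega)
  set M : ℕ := ⌊(n : ℝ) ^ (3 * ε / 8)⌋₊ with hMdef
  have hM1 : 1 ≤ M := by
    rw [hMdef, Nat.one_le_floor_iff]
    exact Real.one_le_rpow hn1 (by positivity)
  have hgen := low_card_ge_robust P P₀ hP₀ M hM1 (fun d hd => by
    rw [hMdef]
    refine Nat.le_floor (le_trans (le_of_eq ?_) (hM d hd))
    congr 2
    exact congrArg (fun I : DecidableEq (EuclideanSpace ℝ (Fin 2)) =>
      @Finset.image _ _ I (fun x => x.2 - x.1) (pairs P₀ d)) (Subsingleton.elim _ _))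
  rw [hP] at hgen hexc
  set e : ℕ := n - P₀.card with he
  set L : ℝ := ((low P).card : ℝ) with hL
  have hle : P₀.card ≤ n := by rw [← hP]; exact Finset.card_le_card hP₀
  have hq0 : (0 : ℝ) < (n : ℝ) ^ (1 - ε) := Real.rpow_pos_of_pos hn0 _
  -- `n = n^(1-ε) n^ε`
  have hns : (n : ℝ) = (n : ℝ) ^ (1 - ε) * (n : ℝ) ^ ε := by
    rw [← Real.rpow_add hn0]
    have : 1 - ε + ε = 1 := by ring
    rw [this, Real.rpow_one]
  have hε4 : (n : ℝ) ^ ε = (n : ℝ) ^ (3 * ε / 4) * (n : ℝ) ^ (ε / 4) := by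
    rw [← Real.rpow_add hn0]
    congr 1
    ring
  have h34 : (1 : ℝ) ≤ (n : ℝ) ^ (3 * ε / 4) := Real.one_le_rpow hn1 (by positivity)
  have hnge : 100 * (n : ℝ) ^ (1 - ε) ≤ n := by
    calc 100 * (n : ℝ) ^ (1 - ε) = (n : ℝ) ^ (1 - ε) * (1 * 100) := by ring
      _ ≤ (n : ℝ) ^ (1 - ε) * ((n : ℝ) ^ (3 * ε / 4) * (n : ℝ) ^ (ε / 4)) := by
          apply mul_le_mul_of_nonneg_left _ hq0.le
          exact mul_le_mul h34 hp (by norm_num) (by positivity)
      _ = n := by rw [← hε4, ← hns]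
  have hone : (1 : ℝ) ≤ (n : ℝ) ^ (1 - ε) := Real.one_le_rpow hn1 (by linarith)
  rcases hgen with ⟨_, hA⟩ | hB
  · have hA' : (P₀.card : ℝ) * P₀.card ≤ n * (L + 2 * e) + P₀.card := by
      rw [hL]
      exact_mod_cast hA
    have hP0 : (P₀.card : ℝ) = n - e := by
      rw [he]
      push_cast [Nat.cast_sub hle]
      ring
    have he0 : (0 : ℝ) ≤ e := Nat.cast_nonneg _
    rw [hP0] at hA'
    have h1 : ((n : ℝ) - e) * (n - e) ≤ n * (L + 2 * e + 1) := by nlinarith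
    have h2 : (n : ℝ) * (n - 2 * e) ≤ n * (L + 2 * e + 1) := by nlinarith
    have h3 := le_of_mul_le_mul_left h2 hn0
    linarith
  · have hB' : (n : ℝ) ^ 2 ≤ (M : ℝ) ^ 2 * (2 * (n * (L + 2 * e)) + n) := by
      rw [hL]
      exact_mod_cast hB
    have hMfl : (M : ℝ) ≤ (n : ℝ) ^ (3 * ε / 8) := Nat.floor_le (by positivity)
    have hM2 : (M : ℝ) ^ 2 ≤ (n : ℝ) ^ (3 * ε / 4) := by
      have e1 : (n : ℝ) ^ (3 * ε / 8) * (n : ℝ) ^ (3 * ε / 8) = (n : ℝ) ^ (3 * ε / 4) := by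
        rw [← Real.rpow_add hn0]
        congr 1
        ring
      rw [sq, ← e1]
      exact mul_le_mul hMfl hMfl (Nat.cast_nonneg _) (by positivity)
    have he0 : (0 : ℝ) ≤ e := Nat.cast_nonneg _
    have hL0 : (0 : ℝ) ≤ L := Nat.cast_nonneg _
    have h1 : (n : ℝ) ^ 2 ≤ (n : ℝ) ^ (3 * ε / 4) * (2 * (n * (L + 2 * e)) + n) :=
      hB'.trans (mul_le_mul_of_nonneg_right hM2 (by
        have h0 := mul_nonneg hn0.le (show 0 ≤ L + 2 * (e : ℝ) by linarith)
        linarith))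
    have h2 : (n : ℝ) * n ≤ n * ((n : ℝ) ^ (3 * ε / 4) * (2 * L + 4 * e + 1)) := by
      calc (n : ℝ) * n = (n : ℝ) ^ 2 := by ring
        _ ≤ _ := h1
        _ = _ := by ring
    have h3 := le_of_mul_le_mul_left h2 hn0
    have h4 : (n : ℝ) ^ (3 * ε / 4) * (100 * (n : ℝ) ^ (1 - ε)) ≤
        (n : ℝ) ^ (3 * ε / 4) * (2 * L + 4 * e + 1) := by
      refine le_trans ?_ h3
      calc (n : ℝ) ^ (3 * ε / 4) * (100 * (n : ℝ) ^ (1 - ε)) =
            (n : ℝ) ^ (1 - ε) * ((n : ℝ) ^ (3 * ε / 4) * 100) := by ring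
        _ ≤ (n : ℝ) ^ (1 - ε) * ((n : ℝ) ^ (3 * ε / 4) * (n : ℝ) ^ (ε / 4)) := by
            apply mul_le_mul_of_nonneg_left _ hq0.le
            exact mul_le_mul_of_nonneg_left hp (by positivity)
        _ = n := by rw [← hε4, ← hns]
    have h5 := le_of_mul_le_mul_left h4 (by positivity)
    linarith

end Pool.Agent.Helper85.GAP
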