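import Pool.Agent.Helper85.GAP.Root

/-!
The algebraically closed fields of germs of sequences of algebraic numbers of bounded degree and
of height polynomial in a given sequence.
-/

set_option autoImplicit false
open scoped Classical

namespace Pool.Agent.Helper85.GAP

open NumberField Polynomial Filter

/-- `x` is algebraic of degree and height bounded by `D` and `B`. -/
def Bd (D : ℕ) (B : ℝ) (x : ℂ) : Prop :=
  ∃ E : IntermediateField ℚ ℂ, FiniteDimensional ℚ E ∧ Module.finrank ℚ E ≤ D ∧ BdIn E B x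

lemma Bd.mono {D D' : ℕ} {B B' : ℝ} (hD : D ≤ D') (hB : B ≤ B') {x : ℂ} (h : Bd D B x) :
    Bd D' B' x := by
  obtain ⟨E, h1, h2, h3⟩ := h
  exact ⟨E, h1, h2.trans hD, h3.mono_bd hB⟩

lemma Bd.intCast {B : ℝ} (hB : 1 ≤ B) (a : ℤ) (ha : |(a : ℝ)| ≤ B) : Bd 1 B (a : ℂ) :=
  ⟨⊥, inferInstance, by rw [IntermediateField.finrank_bot], BdIn.intCast _ hB a ha⟩

lemma Bd.add {D D' : ℕ} {B B' : ℝ} {x y : ℂ} (hx : Bd D B x) (hy : Bd D' B' y) :
    Bd (D * D') (2 * (B * B')) (x + y) := by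
  obtain ⟨E, h1, h2, h3⟩ := hx
  obtain ⟨E', h1', h2', h3'⟩ := hy
  refine ⟨E ⊔ E', IntermediateField.finiteDimensional_sup E E', ?_,
    (h3.mono le_sup_left).add (h3'.mono le_sup_right)⟩
  exact (IntermediateField.finrank_sup_le E E').trans (Nat.mul_le_mul h2 h2')

lemma Bd.mul {D D' : ℕ} {B B' : ℝ} {x y : ℂ} (hx : Bd D B x) (hy : Bd D' B' y) :
    Bd (D * D') (B * B') (x * y) := by
  obtain ⟨E, h1, h2, h3⟩ := hx
  obtain ⟨E', h1', h2', h3'⟩ := hy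
  refine ⟨E ⊔ E', IntermediateField.finiteDimensional_sup E E', ?_,
    (h3.mono le_sup_left).mul (h3'.mono le_sup_right)⟩
  exact (IntermediateField.finrank_sup_le E E').trans (Nat.mul_le_mul h2 h2')

lemma Bd.neg {D : ℕ} {B : ℝ} {x : ℂ} (hx : Bd D B x) : Bd D B (-x) := by
  obtain ⟨E, h1, h2, h3⟩ := hx
  exact ⟨E, h1, h2, h3.neg⟩

lemma Bd.inv {D : ℕ} {B : ℝ} {x : ℂ} (hx : Bd D B x) : Bd D (B * (B * B) ^ D) x⁻¹ := by
  obtain ⟨E, h1, h2, h3⟩ := hx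
  exact ⟨E, h1, h2, h3.inv h2⟩

/-- a common field -/
lemma Bd.common {D : ℕ} {B : ℝ} {N : ℕ} (c : Fin N → ℂ) (hc : ∀ i, Bd D B (c i)) :
    ∃ E : IntermediateField ℚ ℂ, FiniteDimensional ℚ E ∧ Module.finrank ℚ E ≤ D ^ N ∧
      ∀ i, BdIn E B (c i) := by
  induction N with
  | zero =>
    exact ⟨⊥, inferInstance, by rw [IntermediateField.finrank_bot, pow_zero],
      fun i => i.elim0⟩
  | succ N ih =>
    obtain ⟨E, h1, h2, h3⟩ := ih (fun i => c i.succ) (fun i => hc i.succ)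
    obtain ⟨E', h1', h2', h3'⟩ := hc 0
    refine ⟨E ⊔ E', IntermediateField.finiteDimensional_sup E E', ?_, ?_⟩
    · rw [pow_succ]
      exact (IntermediateField.finrank_sup_le E E').trans (Nat.mul_le_mul h2 h2')
    · intro i
      refine Fin.cases ?_ (fun j => ?_) i
      · exact h3'.mono le_sup_right
      · exact (h3 j).mono le_sup_left

lemma Bd.root {D : ℕ} {B : ℝ} (hB : 1 ≤ B) {N : ℕ} (hN : 0 < N) (c : Fin N → ℂ)
    (hc : ∀ i, Bd D B (c i)) {z : ℂ} (hz : z ^ N + ∑ i, c i * z ^ (i : ℕ) = 0) :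
    Bd (D ^ N * N) (N * B ^ N) z := by
  obtain ⟨E, h1, h2, h3⟩ := Bd.common c hc
  obtain ⟨E', h4, h5, h6, h7⟩ := BdIn.root hN hB c h3 hz
  exact ⟨E', h4, h6.trans (Nat.mul_le_mul_right _ h2), h7⟩

/-- The field of all germs. -/
abbrev Om : Type := Germ (hyperfilter ℕ : Filter ℕ) ℂ

/-- degree bounded, height polynomial in `G` -/
def InF (G : ℕ → ℕ) (f : ℕ → ℂ) : Prop :=
  ∃ D : ℕ, ∀ᶠ k in (hyperfilter ℕ : Filter ℕ), Bd D ((G k : ℝ) ^ D) (f k)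

lemma InF.intCast {G : ℕ → ℕ} (hG : ∀ k, 2 ≤ G k) (a : ℕ → ℤ)
    (ha : ∀ᶠ k in (hyperfilter ℕ : Filter ℕ), |(a k : ℝ)| ≤ G k) : InF G (fun k => (a k : ℂ)) := by
  refine ⟨1, ha.mono fun k hk => ?_⟩
  apply Bd.intCast
  · rw [pow_one]
    have := hG k
    exact_mod_cast (by omega : 1 ≤ G k)
  · rwa [pow_one]

lemma InF.add {G : ℕ → ℕ} (hG : ∀ k, 2 ≤ G k) {f g : ℕ → ℂ} (hf : InF G f) (hg : InF G g) :
    InF G (f + g) := by
  obtain ⟨D, hD⟩ := hf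
  obtain ⟨D', hD'⟩ := hg
  refine ⟨D * D' + (D + D' + 1), ?_⟩
  filter_upwards [hD, hD'] with k h1 h2
  have hGk : (2 : ℝ) ≤ G k := by exact_mod_cast hG k
  refine (h1.add h2).mono (Nat.le_add_right _ _) ?_
  calc 2 * ((G k : ℝ) ^ D * (G k : ℝ) ^ D') ≤ G k * ((G k : ℝ) ^ D * (G k : ℝ) ^ D') :=
        mul_le_mul_of_nonneg_right hGk (by positivity)
    _ = (G k : ℝ) ^ (D + D' + 1) := by ring
    _ ≤ (G k : ℝ) ^ (D * D' + (D + D' + 1)) :=
        pow_le_pow_right₀ (by linarith) (Nat.le_add_left _ _)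

lemma InF.mul {G : ℕ → ℕ} (hG : ∀ k, 2 ≤ G k) {f g : ℕ → ℂ} (hf : InF G f) (hg : InF G g) :
    InF G (f * g) := by
  obtain ⟨D, hD⟩ := hf
  obtain ⟨D', hD'⟩ := hg
  refine ⟨D * D' + (D + D'), ?_⟩
  filter_upwards [hD, hD'] with k h1 h2
  have hGk : (2 : ℝ) ≤ G k := by exact_mod_cast hG k
  refine (h1.mul h2).mono (Nat.le_add_right _ _) ?_
  rw [← pow_add]
  exact pow_le_pow_right₀ (by linarith) (Nat.le_add_left _ _)

lemma InF.neg {G : ℕ → ℕ} {f : ℕ → ℂ} (hf : InF G f) : InF G (-f) := by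
  obtain ⟨D, hD⟩ := hf
  exact ⟨D, hD.mono fun k h => h.neg⟩

lemma InF.inv {G : ℕ → ℕ} (hG : ∀ k, 2 ≤ G k) {f : ℕ → ℂ} (hf : InF G f) : InF G (f⁻¹) := by
  obtain ⟨D, hD⟩ := hf
  refine ⟨D + 2 * D * D, ?_⟩
  filter_upwards [hD] with k h1
  have hGk : (2 : ℝ) ≤ G k := by exact_mod_cast hG k
  refine h1.inv.mono (Nat.le_add_right _ _) (le_of_eq ?_)
  rw [← pow_add, ← pow_mul, ← pow_add]
  congr 1
  ring

lemma InF.mono_deg {G : ℕ → ℕ} (hG : ∀ k, 2 ≤ G k) {D D' : ℕ} (h : D ≤ D') {k : ℕ} {x : ℂ}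
    (hx : Bd D ((G k : ℝ) ^ D) x) : Bd D' ((G k : ℝ) ^ D') x := by
  refine hx.mono h (pow_le_pow_right₀ ?_ h)
  have := hG k
  exact_mod_cast (by omega : 1 ≤ G k)

lemma InF.root {G : ℕ → ℕ} (hG : ∀ k, 2 ≤ G k) {N : ℕ} (hN : 0 < N) (c : Fin N → ℕ → ℂ)
    (hc : ∀ i, InF G (c i)) {z : ℕ → ℂ}
    (hz : ∀ k, z k ^ N + ∑ i, c i k * z k ^ (i : ℕ) = 0) : InF G z := by
  choose D hD using hc
  let D0 := ∑ i, D i
  have hD0 : ∀ᶠ k in (hyperfilter ℕ : Filter ℕ), ∀ i, Bd D0 ((G k : ℝ) ^ D0) (c i k) := by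
    rw [eventually_all]
    intro i
    exact (hD i).mono fun k hk =>
      InF.mono_deg hG (Finset.single_le_sum (fun _ _ => Nat.zero_le _) (Finset.mem_univ i)) hk
  refine ⟨D0 ^ N * N + (N + D0 * N), ?_⟩
  filter_upwards [hD0] with k hk
  have hGk : (2 : ℝ) ≤ G k := by exact_mod_cast hG k
  have h1 : (1 : ℝ) ≤ (G k : ℝ) ^ D0 := one_le_pow₀ (by linarith)
  refine (Bd.root h1 hN (fun i => c i k) hk (hz k)).mono (Nat.le_add_right _ _) ?_
  have h2 : (N : ℝ) ≤ (G k : ℝ) ^ N := by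
    calc (N : ℝ) ≤ 2 ^ N := by exact_mod_cast (Nat.lt_two_pow_self (n := N)).le
      _ ≤ (G k : ℝ) ^ N := pow_le_pow_left₀ (by norm_num) hGk N
  calc (N : ℝ) * ((G k : ℝ) ^ D0) ^ N ≤ (G k : ℝ) ^ N * ((G k : ℝ) ^ D0) ^ N :=
        mul_le_mul_of_nonneg_right h2 (by positivity)
    _ = (G k : ℝ) ^ (N + D0 * N) := by rw [← pow_mul, ← pow_add]
    _ ≤ _ := pow_le_pow_right₀ (by linarith) (Nat.le_add_left _ _)

/-- The field of germs of sequences of algebraic numbers of bounded degree and of height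
polynomial in `G`. -/
noncomputable def FF (G : ℕ → ℕ) (hG : ∀ k, 2 ≤ G k) : Subfield Om where
  carrier := {x | ∃ f : ℕ → ℂ, (f : Om) = x ∧ InF G f}
  zero_mem' := by
    refine ⟨fun k => ((0 : ℤ) : ℂ), ?_, InF.intCast hG (fun _ => 0) (Eventually.of_forall fun k => by simp)⟩
    have : (fun _ : ℕ => ((0 : ℤ) : ℂ)) = 0 := by funext k; simp
    rw [this]
    rfl
  one_mem' := by
    refine ⟨fun k => ((1 : ℤ) : ℂ), ?_, InF.intCast hG (fun _ => 1) (Eventually.of_forall fun k => ?_)⟩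
    · have : (fun _ : ℕ => ((1 : ℤ) : ℂ)) = 1 := by funext k; simp
      rw [this]
      rfl
    · have := hG k
      simp only [Int.cast_one, abs_one]
      exact_mod_cast (by omega : 1 ≤ G k)
  add_mem' := by
    rintro _ _ ⟨f, rfl, hf⟩ ⟨g, rfl, hg⟩
    exact ⟨f + g, rfl, hf.add hG hg⟩
  mul_mem' := by
    rintro _ _ ⟨f, rfl, hf⟩ ⟨g, rfl, hg⟩
    exact ⟨f * g, rfl, hf.mul hG hg⟩
  neg_mem' := by
    rintro _ ⟨f, rfl, hf⟩
    exact ⟨-f, rfl, hf.neg⟩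
  inv_mem' := by
    rintro _ ⟨f, rfl, hf⟩
    exact ⟨f⁻¹, rfl, hf.inv hG⟩

lemma mem_FF {G : ℕ → ℕ} {hG : ∀ k, 2 ≤ G k} {x : Om} :
    x ∈ FF G hG ↔ ∃ f : ℕ → ℂ, (f : Om) = x ∧ InF G f := Iff.rfl

instance FF_algClosed (G : ℕ → ℕ) (hG : ∀ k, 2 ≤ G k) : IsAlgClosed (FF G hG) := by
  apply IsAlgClosed.of_exists_root
  intro p hp hirr
  set N := p.natDegree with hN
  have hN0 : 0 < N := hirr.natDegree_pos
  have hcoef : ∀ i : Fin N, ∃ f : ℕ → ℂ, (f : Om) = (p.coeff i : Om) ∧ InF G f := fun i =>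
    (p.coeff i).2
  choose c hc hcF using hcoef
  have hroot : ∀ k, ∃ z : ℂ, z ^ N + ∑ i, c i k * z ^ (i : ℕ) = 0 := by
    intro k
    let q : ℂ[X] := X ^ N + ∑ i : Fin N, C (c i k) * X ^ (i : ℕ)
    have hdeg : q.degree = N := by
      simp only [q]
      rw [degree_add_eq_left_of_degree_lt]
      · exact degree_X_pow N
      · rw [degree_X_pow]
        exact degree_sum_fin_lt _
    obtain ⟨z, hz⟩ := IsAlgClosed.exists_root q (by
      rw [hdeg]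
      exact_mod_cast hN0.ne')
    refine ⟨z, ?_⟩
    have h1 : eval z q = 0 := hz
    simp only [q, eval_add, eval_pow, eval_X, eval_finsetSum, eval_mul, eval_C] at h1
    exact h1
  choose z hz using hroot
  have hzF : InF G z := InF.root hG hN0 c hcF hz
  refine ⟨⟨(z : Om), z, rfl, hzF⟩, ?_⟩
  apply Subtype.ext
  have h1 : ((eval (⟨(z : Om), z, rfl, hzF⟩ : FF G hG) p : FF G hG) : Om) =
      (z : Om) ^ N + ∑ i : Fin N, (p.coeff i : Om) * (z : Om) ^ (i : ℕ) := by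
    rw [eval_eq_sum_range, Finset.sum_range_succ, ← hN, Finset.sum_range]
    push_cast
    rw [show p.coeff N = 1 from hp, add_comm]
    push_cast
    rw [one_mul]
  rw [h1]
  have h2 : (z : Om) ^ N + ∑ i : Fin N, (p.coeff i : Om) * (z : Om) ^ (i : ℕ) =
      Germ.coeRingHom (hyperfilter ℕ : Filter ℕ) (z ^ N + ∑ i : Fin N, c i * z ^ (i : ℕ)) := by
    rw [map_add, map_pow, map_sum]
    congr 1
    refine Finset.sum_congr rfl fun i _ => ?_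
    rw [map_mul, map_pow, ← hc i]
    rfl
  have h3 : z ^ N + ∑ i : Fin N, c i * z ^ (i : ℕ) = 0 := by
    funext k
    have := hz k
    simp only [Pi.add_apply, Pi.pow_apply, Finset.sum_apply, Pi.mul_apply, Pi.zero_apply]
    exact this
  rw [h2, h3, map_zero]
  rfl

lemma FF_mono {G G' : ℕ → ℕ} {hG : ∀ k, 2 ≤ G k} {hG' : ∀ k, 2 ≤ G' k} (h : ∀ k, G k ≤ G' k) :
    FF G hG ≤ FF G' hG' := by
  rintro _ ⟨f, rfl, D, hD⟩
  refine ⟨f, rfl, D, hD.mono fun k hk => hk.mono le_rfl ?_⟩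
  exact pow_le_pow_left₀ (Nat.cast_nonneg _) (by exact_mod_cast h k) D

lemma T_mem {G : ℕ → ℕ} (hG : ∀ k, 2 ≤ G k) : ((fun k => ((G k : ℤ) : ℂ) : ℕ → ℂ) : Om) ∈ FF G hG :=
  ⟨_, rfl, InF.intCast hG (fun k => (G k : ℤ)) (Eventually.of_forall fun k => by simp)⟩

lemma T_not_mem {G G' : ℕ → ℕ} (hG : ∀ k, 2 ≤ G k) (hG' : ∀ k, G k ^ (k + 1) ≤ G' k) :
    ((fun k => ((G' k : ℤ) : ℂ) : ℕ → ℂ) : Om) ∉ FF G hG := by
  rintro ⟨f, hf, D, hD⟩
  rw [Germ.coe_eq] at hf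
  have h1 : ∀ᶠ k in (hyperfilter ℕ : Filter ℕ), D ≤ k :=
    (eventually_ge_atTop D).filter_mono Nat.hyperfilter_le_atTop
  obtain ⟨k, hk1, hk2, hk3⟩ := (hf.and (hD.and h1)).exists
  rw [hk1] at hk2
  obtain ⟨E, _, _, hE⟩ := hk2
  have h2 := hE.conj (algebraMap E ℂ)
  have h3 : (algebraMap E ℂ) ⟨(((G' k : ℤ) : ℂ)), hE.mem⟩ = ((G' k : ℕ) : ℂ) := by
    show (((G' k : ℤ) : ℂ)) = _
    push_cast
    rfl
  rw [h3, Complex.norm_natCast] at h2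
  have h4 : G' k ≤ G k ^ D := by exact_mod_cast h2
  have h5 : G k ^ (k + 1) ≤ G k ^ D := (hG' k).trans h4
  have h6 : k + 1 ≤ D := (Nat.pow_le_pow_iff_right (by have := hG k; omega)).1 h5
  omega

end Pool.Agent.Helper85.GAP
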