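import Pool.Agent.Helper85.GAP.Bd

/-!
Roots of monic polynomials whose coefficients are algebraic numbers of bounded degree and height.
-/

set_option autoImplicit false
open scoped Classical

namespace Pool.Agent.Helper85.GAP

open NumberField Polynomial

lemma cauchy_bound {N : ℕ} (hN : 0 < N) {B : ℝ} (hB : 1 ≤ B) (c : Fin N → ℂ)
    (hc : ∀ i, ‖c i‖ ≤ B) {z : ℂ} (hz : z ^ N + ∑ i, c i * z ^ (i : ℕ) = 0) :
    ‖z‖ ≤ N * B := by
  have hNR : (1 : ℝ) ≤ N := by exact_mod_cast hN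
  by_contra hcon
  push Not at hcon
  have h1 : 1 < ‖z‖ := by nlinarith
  have h2 : ‖z‖ ^ N ≤ N * B * ‖z‖ ^ (N - 1) := by
    have e : z ^ N = -∑ i, c i * z ^ (i : ℕ) := by linear_combination hz
    rw [← norm_pow, e, norm_neg]
    refine (norm_sum_le _ _).trans ?_
    calc ∑ i : Fin N, ‖c i * z ^ (i : ℕ)‖ ≤ ∑ i : Fin N, B * ‖z‖ ^ (N - 1) := by
          apply Finset.sum_le_sum
          intro i _
          rw [norm_mul, norm_pow]
          apply mul_le_mul (hc i) _ (by positivity) (by linarith)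
          exact pow_le_pow_right₀ h1.le (by omega)
      _ = N * B * ‖z‖ ^ (N - 1) := by
          rw [Finset.sum_const, Finset.card_univ, Fintype.card_fin, nsmul_eq_mul]; ring
  have h3 : ‖z‖ ^ N = ‖z‖ * ‖z‖ ^ (N - 1) := by
    rw [← pow_succ']; congr 1; omega
  rw [h3] at h2
  have h4 : 0 < ‖z‖ ^ (N - 1) := by positivity
  have := le_of_mul_le_mul_right h2 h4
  linarith

lemma integral_root {N : ℕ} (c : Fin N → ℂ) (m : Fin N → ℕ)
    (hc : ∀ i, IsIntegral ℤ ((m i : ℂ) * c i)) {z : ℂ}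
    (hz : z ^ N + ∑ i, c i * z ^ (i : ℕ) = 0) :
    IsIntegral ℤ (((∏ i, m i : ℕ) : ℂ) * z) := by
  set M : ℕ := ∏ i, m i with hM
  let R := integralClosure ℤ ℂ
  have hcoef : ∀ i : Fin N, IsIntegral ℤ (c i * (M : ℂ) ^ (N - (i : ℕ))) := by
    intro i
    have e : c i * (M : ℂ) ^ (N - (i : ℕ)) =
        ((m i : ℂ) * c i) * ((∏ j ∈ Finset.univ.erase i, m j : ℕ) * M ^ (N - (i : ℕ) - 1) : ℕ) := by
      have e1 : N - (i : ℕ) = (N - (i : ℕ) - 1) + 1 := by have := i.2; omega
      have e2 : (M : ℂ) = (m i : ℂ) * ((∏ j ∈ Finset.univ.erase i, m j : ℕ) : ℂ) := by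
        rw [hM, ← Finset.mul_prod_erase Finset.univ m (Finset.mem_univ i)]
        push_cast
        ring
      push_cast
      rw [e1, pow_succ, Nat.add_sub_cancel]
      nth_rewrite 2 [e2]
      push_cast
      ring
    rw [e]
    exact (hc i).mul (isIntegral_algebraMap (R := ℤ) (A := ℂ)
      (x := (((∏ j ∈ Finset.univ.erase i, m j : ℕ) * M ^ (N - (i : ℕ) - 1) : ℕ) : ℤ)))
  let p : R[X] := X ^ N + ∑ i : Fin N, C (⟨_, hcoef i⟩ : R) * X ^ (i : ℕ)
  have hp : p.Monic := monic_X_pow_add (degree_sum_fin_lt _)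
  have hint : IsIntegral R ((M : ℂ) * z) := by
    refine ⟨p, hp, ?_⟩
    have e : eval₂ (algebraMap R ℂ) ((M : ℂ) * z) p = (M : ℂ) ^ N *
        (z ^ N + ∑ i, c i * z ^ (i : ℕ)) := by
      simp only [p, eval₂_add, eval₂_pow, eval₂_X, eval₂_finsetSum, eval₂_mul, eval₂_C]
      rw [mul_add, mul_pow, Finset.mul_sum]
      congr 1
      refine Finset.sum_congr rfl fun i _ => ?_
      have e1 : (algebraMap R ℂ) ⟨_, hcoef i⟩ = c i * (M : ℂ) ^ (N - (i : ℕ)) := rfl
      rw [e1, mul_pow]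
      have e2 : (M : ℂ) ^ N = (M : ℂ) ^ (N - (i : ℕ)) * (M : ℂ) ^ (i : ℕ) := by
        rw [← pow_add]; congr 1; have := i.2; omega
      rw [e2]
      ring
    rw [e, hz, mul_zero]
  exact isIntegral_trans (R := ℤ) (A := R) _ hint

lemma BdIn.root {E : IntermediateField ℚ ℂ} [FiniteDimensional ℚ E] {N : ℕ} (hN : 0 < N)
    {B : ℝ} (hB : 1 ≤ B) (c : Fin N → ℂ) (hc : ∀ i, BdIn E B (c i)) {z : ℂ}
    (hz : z ^ N + ∑ i, c i * z ^ (i : ℕ) = 0) :
    ∃ E' : IntermediateField ℚ ℂ, FiniteDimensional ℚ E' ∧ E ≤ E' ∧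
      Module.finrank ℚ E' ≤ Module.finrank ℚ E * N ∧ BdIn E' (N * B ^ N) z := by
  let p : E[X] := X ^ N + ∑ i : Fin N, C (⟨c i, (hc i).mem⟩ : E) * X ^ (i : ℕ)
  have hp : p.Monic := monic_X_pow_add (degree_sum_fin_lt _)
  have hdeg : p.natDegree = N := by
    apply natDegree_eq_of_degree_eq_some
    rw [degree_add_eq_left_of_degree_lt]
    · exact degree_X_pow N
    · rw [degree_X_pow]
      exact degree_sum_fin_lt _
  have hpz : aeval z p = 0 := by
    simp only [p, map_add, map_pow, aeval_X, map_sum, map_mul, aeval_C]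
    exact hz
  have hzint : IsIntegral E z := ⟨p, hp, hpz⟩
  have hdeg2 : (minpoly E z).natDegree ≤ N := by
    rw [← hdeg]
    exact natDegree_le_natDegree (minpoly.min E z hp hpz)
  have hfd : FiniteDimensional E (IntermediateField.adjoin E {z}) :=
    IntermediateField.adjoin.finiteDimensional hzint
  have hfr : Module.finrank E (IntermediateField.adjoin E {z}) = (minpoly E z).natDegree :=
    IntermediateField.adjoin.finrank hzint
  let E' : IntermediateField ℚ ℂ := (IntermediateField.adjoin E {z}).restrictScalars ℚ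
  have hfd' : FiniteDimensional ℚ (IntermediateField.adjoin E {z}) :=
    Module.Finite.trans E _
  have hmul := Module.finrank_mul_finrank ℚ E (IntermediateField.adjoin E {z})
  have hEE' : E ≤ E' := by
    intro x hx
    exact (IntermediateField.adjoin E {z}).algebraMap_mem ⟨x, hx⟩
  have hzE' : z ∈ E' := IntermediateField.mem_adjoin_simple_self E z
  refine ⟨E', hfd', hEE', ?_, hzE', fun σ => ?_, ?_⟩
  · show Module.finrank ℚ (IntermediateField.adjoin E {z}) ≤ _
    rw [← hmul, hfr]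
    exact Nat.mul_le_mul_left _ hdeg2
  · have hc' : ∀ i, ‖σ ⟨c i, hEE' (hc i).mem⟩‖ ≤ B := fun i =>
      ((hc i).mono hEE').conj σ
    have hz' : σ ⟨z, hzE'⟩ ^ N + ∑ i, σ ⟨c i, hEE' (hc i).mem⟩ * σ ⟨z, hzE'⟩ ^ (i : ℕ) = 0 := by
      have e : (⟨z, hzE'⟩ : E') ^ N + ∑ i, (⟨c i, hEE' (hc i).mem⟩ : E') * (⟨z, hzE'⟩ : E') ^ (i : ℕ)
          = 0 := by
        apply Subtype.ext
        push_cast
        exact hz
      have := congrArg σ e
      simpa only [map_add, map_pow, map_sum, map_mul, map_zero] using this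
    refine (cauchy_bound hN hB _ hc' hz').trans ?_
    apply mul_le_mul_of_nonneg_left _ (Nat.cast_nonneg _)
    exact le_self_pow₀ hB hN.ne'
  · choose m hm hmB hi using fun i => (hc i).den
    refine ⟨∏ i, m i, Finset.prod_pos fun i _ => hm i, ?_, integral_root c m hi hz⟩
    push_cast
    have h1 : ∏ i : Fin N, (m i : ℝ) ≤ B ^ N := by
      calc ∏ i : Fin N, (m i : ℝ) ≤ ∏ i : Fin N, B :=
            Finset.prod_le_prod (fun i _ => Nat.cast_nonneg _) fun i _ => hmB i
        _ = B ^ N := by rw [Finset.prod_const, Finset.card_univ, Fintype.card_fin]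
    have h2 : (1 : ℝ) ≤ N := by exact_mod_cast hN
    have h3 : 0 < B ^ N := by positivity
    nlinarith

end Pool.Agent.Helper85.GAP
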