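import Pool.Agent.Helper85.LowMult.Ideals
import Pool.Agent.Helper85.LowMult.Count

/-!
Divisor bounds for elements of number fields, uniform in all number fields of bounded degree.
-/

set_option autoImplicit false
open scoped Classical

namespace Pool.Agent.Helper85.GAP

open NumberField UniqueFactorizationMonoid Pool.Agent.Helper85.LowMult

/-- at most `[K : ℚ]` prime ideals of given norm -/
lemma card_primes_norm (K : Type) [Field K] [NumberField K] (k : ℕ) (hk : 2 ≤ k)
    (T : Finset (Ideal (𝓞 K))) (hT : ∀ P ∈ T, Prime P ∧ Ideal.absNorm P = k) :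
    T.card ≤ Module.finrank ℚ K := by
  have h1 : ∏ P ∈ T, P ∣ Ideal.span {(k : 𝓞 K)} := by
    apply Finset.prod_primes_dvd
    · intro P hP
      exact (hT P hP).1
    · intro P hP
      rw [Ideal.dvd_iff_le, Ideal.span_singleton_le_iff_mem, ← (hT P hP).2]
      exact Ideal.absNorm_mem P
  have h2 : Ideal.absNorm (∏ P ∈ T, P) = k ^ T.card := by
    rw [map_prod, Finset.prod_congr rfl (fun P hP => (hT P hP).2), Finset.prod_const]
  have h3 : Ideal.absNorm (Ideal.span {(k : 𝓞 K)}) = k ^ Module.finrank ℚ K := by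
    rw [Ideal.absNorm_span_natCast, RingOfIntegers.rank]
  have h4 : k ^ T.card ≤ k ^ Module.finrank ℚ K := by
    rw [← h2, ← h3]
    apply Nat.le_of_dvd
    · rw [h3]; positivity
    · exact Ideal.absNorm_dvd_absNorm_of_le (Ideal.le_of_dvd h1)
  exact (Nat.pow_le_pow_iff_right (by omega)).mp h4

/-- prime ideals of bounded norm -/
lemma card_primes_le (K : Type) [Field K] [NumberField K] (B : ℕ)
    (T : Finset (Ideal (𝓞 K))) (hT : ∀ P ∈ T, Prime P ∧ Ideal.absNorm P ≤ B) :
    T.card ≤ Module.finrank ℚ K * (B + 1) := by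
  have h := Finset.card_le_mul_card_image_of_maps_to (s := T) (t := Finset.range (B + 1))
    (f := fun P : Ideal (𝓞 K) => Ideal.absNorm P)
    (fun P hP => Finset.mem_range.mpr (Nat.lt_succ_of_le (hT P hP).2)) (Module.finrank ℚ K) (by
      intro k _
      by_cases hk : 2 ≤ k
      · apply card_primes_norm K k hk
        intro P hP
        rw [Finset.mem_filter] at hP
        exact ⟨(hT P hP.1).1, hP.2⟩
      · have : T.filter (fun P => Ideal.absNorm P = k) = ∅ := by
          rw [Finset.filter_eq_empty_iff]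
          intro P hP hPk
          have hpp := (hT P hP).1
          have h0 : Ideal.absNorm P ≠ 0 := by
            rw [Ne, Ideal.absNorm_eq_zero_iff]
            exact hpp.ne_zero
          have h1 : Ideal.absNorm P ≠ 1 := by
            rw [Ne, Ideal.absNorm_eq_one_iff]
            intro h
            exact hpp.not_isUnit (by rw [h, ← Ideal.one_eq_top]; exact isUnit_one)
          omega
        rw [this, Finset.card_empty]
        exact Nat.zero_le _)
  simpa using h

/-- the divisor bound for ideals, uniform in number fields of degree at most `D` -/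
theorem divisor_bound_uniform (D : ℕ) (δ : ℝ) (hδ : 0 < δ) :
    ∃ C : ℝ, 0 < C ∧ ∀ (K : Type) [Field K] [NumberField K], Module.finrank ℚ K ≤ D →
      ∀ I : Ideal (𝓞 K), I ≠ ⊥ →
      ((Finset.Iic (normalizedFactors I)).card : ℝ) ≤ C * (Ideal.absNorm I : ℝ) ^ δ := by
  obtain ⟨C0, hC0, hC0'⟩ := exists_C0 δ hδ
  obtain ⟨B, hB⟩ := exists_B δ hδ
  refine ⟨C0 ^ (D * (B + 1)), by positivity, ?_⟩
  intro K _ _ hKD I hI
  set s := normalizedFactors I with hs
  have hprod : s.prod = I := by
    rw [hs]
    exact associated_iff_eq.mp (prod_normalizedFactors hI)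
  have hnorm : (Ideal.absNorm I : ℝ) = ∏ p ∈ s.toFinset, ((Ideal.absNorm p : ℝ) ^ (s.count p)) := by
    rw [← hprod, Finset.prod_multiset_count, map_prod, Nat.cast_prod]
    apply Finset.prod_congr rfl
    intro p _
    rw [map_pow, Nat.cast_pow]
  have hge2 : ∀ p ∈ s.toFinset, 2 ≤ Ideal.absNorm p := by
    intro p hp
    rw [Multiset.mem_toFinset] at hp
    have hpp : Prime p := prime_of_normalized_factor p hp
    have h0 : Ideal.absNorm p ≠ 0 := by
      rw [Ne, Ideal.absNorm_eq_zero_iff]
      exact hpp.ne_zero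
    have h1 : Ideal.absNorm p ≠ 1 := by
      rw [Ne, Ideal.absNorm_eq_one_iff]
      intro h
      exact hpp.not_isUnit (by rw [h, ← Ideal.one_eq_top]; exact isUnit_one)
    omega
  rw [Multiset.card_Iic, Nat.cast_prod, hnorm, ← Real.finsetProd_rpow _ _ (fun i _ => by positivity)]
  have step : ∀ p ∈ s.toFinset, (((s.count p + 1 : ℕ)) : ℝ) ≤
      (if Ideal.absNorm p ≤ B then C0 else 1) * ((Ideal.absNorm p : ℝ) ^ (s.count p)) ^ δ := by
    intro p hp
    push_cast
    split_ifs with h
    · exact hC0' _ _ (hge2 p hp)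
    · rw [one_mul]
      exact hB _ _ (by omega)
  calc ∏ p ∈ s.toFinset, (((s.count p + 1 : ℕ)) : ℝ)
      ≤ ∏ p ∈ s.toFinset, ((if Ideal.absNorm p ≤ B then C0 else 1) *
          ((Ideal.absNorm p : ℝ) ^ (s.count p)) ^ δ) :=
        Finset.prod_le_prod (fun i _ => by positivity) step
    _ = (∏ p ∈ s.toFinset, (if Ideal.absNorm p ≤ B then C0 else 1)) *
        ∏ p ∈ s.toFinset, ((Ideal.absNorm p : ℝ) ^ (s.count p)) ^ δ := Finset.prod_mul_distrib
    _ ≤ C0 ^ (D * (B + 1)) *
        ∏ p ∈ s.toFinset, ((Ideal.absNorm p : ℝ) ^ (s.count p)) ^ δ := by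
        apply mul_le_mul_of_nonneg_right
        · rw [Finset.prod_ite, Finset.prod_const_one, mul_one, Finset.prod_const]
          apply pow_le_pow_right₀ hC0
          have h1 := card_primes_le K B (s.toFinset.filter (fun p => Ideal.absNorm p ≤ B)) (by
            intro P hP
            rw [Finset.mem_filter, Multiset.mem_toFinset] at hP
            exact ⟨prime_of_normalized_factor P hP.1, hP.2⟩)
          exact h1.trans (Nat.mul_le_mul_right _ hKD)
        · exact Finset.prod_nonneg (fun i _ => by positivity)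

/-- algebraic integers with all conjugates of size at most `2`, uniform in the degree -/
theorem small_card (D : ℕ) : ∃ N2 : ℕ, 0 < N2 ∧ ∀ (K : Type) [Field K] [NumberField K],
    Module.finrank ℚ K ≤ D → ∀ S : Finset (𝓞 K), (∀ x ∈ S, ∀ ψ : K →+* ℂ, ‖ψ (x : K)‖ ≤ 2) →
    S.card ≤ N2 := by
  refine ⟨(D + 1) * (2 * 4 ^ D + 1) ^ (D + 1), by positivity, ?_⟩
  intro K _ _ hKD S hS
  set d := Module.finrank ℚ K with hd
  -- coefficients of the minimal polynomial
  let F : 𝓞 K → (Fin (D + 1) → ℤ) := fun x i => (minpoly ℤ (x : K)).coeff i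
  have hint : ∀ x : 𝓞 K, IsIntegral ℤ (x : K) := fun x => x.isIntegral_coe
  have hmap : ∀ x : 𝓞 K, (minpoly ℤ (x : K)).map (algebraMap ℤ ℚ) = minpoly ℚ (x : K) := fun x =>
    (minpoly.isIntegrallyClosed_eq_field_fractions' ℚ (hint x)).symm
  have hcoeff : ∀ x ∈ S, ∀ i : ℕ, |(minpoly ℤ (x : K)).coeff i| ≤ (4 : ℤ) ^ D := by
    intro x hx i
    have h1 := Embeddings.coeff_bdd_of_norm_le (A := ℂ) (hS x hx) i
    rw [← hmap x, Polynomial.coeff_map] at h1
    have h2 : (max (2:ℝ) 1) ^ d * (d.choose (d / 2)) ≤ 4 ^ D := by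
      have e1 : max (2:ℝ) 1 = 2 := by norm_num
      rw [e1]
      have e2 : ((d.choose (d / 2) : ℕ) : ℝ) ≤ 2 ^ d := by exact_mod_cast Nat.choose_le_two_pow d (d / 2)
      calc (2:ℝ) ^ d * (d.choose (d / 2)) ≤ 2 ^ d * 2 ^ d := mul_le_mul_of_nonneg_left e2 (by positivity)
        _ = 4 ^ d := by rw [← mul_pow]; norm_num
        _ ≤ 4 ^ D := pow_le_pow_right₀ (by norm_num) hKD
    have h3 : ‖(algebraMap ℤ ℚ) ((minpoly ℤ (x : K)).coeff i)‖ = |(((minpoly ℤ (x : K)).coeff i : ℤ) : ℝ)| := by
      simp [← Int.norm_eq_abs]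
    rw [h3] at h1
    have h4 := h1.trans h2
    exact_mod_cast h4
  have hdeg : ∀ x : 𝓞 K, (minpoly ℤ (x : K)).natDegree ≤ D := by
    intro x
    have h1 : (minpoly ℚ (x : K)).natDegree = (minpoly ℤ (x : K)).natDegree := by
      rw [← hmap x, Polynomial.natDegree_map_eq_of_injective]
      exact (algebraMap ℤ ℚ).injective_int
    rw [← h1]
    exact (minpoly.natDegree_le _).trans hKD
  have h := Finset.card_le_mul_card_image_of_maps_to (s := S)
    (t := Fintype.piFinset (fun _ : Fin (D + 1) => Finset.Icc (-(4:ℤ) ^ D) (4 ^ D))) (f := F) (by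
      intro x hx
      rw [Fintype.mem_piFinset]
      intro i
      rw [Finset.mem_Icc]
      exact abs_le.mp (hcoeff x hx i)) (D + 1) (by
      intro c _
      rcases (S.filter (fun x => F x = c)).eq_empty_or_nonempty with he | ⟨x0, hx0⟩
      · rw [he, Finset.card_empty]; exact Nat.zero_le _
      rw [Finset.mem_filter] at hx0
      set f := minpoly ℤ (x0 : K) with hf
      have hf0 : f ≠ 0 := minpoly.ne_zero (hint x0)
      have hsame : ∀ x ∈ S.filter (fun x => F x = c), minpoly ℤ (x : K) = f := by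
        intro x hx
        rw [Finset.mem_filter] at hx
        ext i
        by_cases hi : i < D + 1
        · have := congrFun (hx.2.trans hx0.2.symm) ⟨i, hi⟩
          exact this
        · rw [Polynomial.coeff_eq_zero_of_natDegree_lt (lt_of_le_of_lt (hdeg x) (by omega)),
            Polynomial.coeff_eq_zero_of_natDegree_lt (lt_of_le_of_lt (hdeg x0) (by omega))]
      have hsub : (S.filter (fun x => F x = c)).image (fun x : 𝓞 K => (x : K)) ⊆
          (f.map (algebraMap ℤ K)).roots.toFinset := by
        intro y hy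
        rw [Finset.mem_image] at hy
        obtain ⟨x, hx, rfl⟩ := hy
        rw [Multiset.mem_toFinset, Polynomial.mem_roots_map_of_injective (algebraMap ℤ K).injective_int hf0,
          ← hsame x hx]
        exact minpoly.aeval ℤ (x : K)
      have h1 := Finset.card_le_card hsub
      rw [Finset.card_image_of_injective _ RingOfIntegers.coe_injective] at h1
      refine h1.trans ((Multiset.toFinset_card_le _).trans ((Polynomial.card_roots' _).trans ?_))
      refine (Polynomial.natDegree_map_le).trans ?_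
      exact (hdeg x0).trans (Nat.le_succ D))
  refine h.trans ?_
  rw [Fintype.card_piFinset]
  simp only [Int.card_Icc, Finset.prod_const, Finset.card_univ, Fintype.card_fin]
  apply Nat.mul_le_mul_left
  apply Nat.pow_le_pow_left
  have : (4:ℤ) ^ D + 1 - (-(4:ℤ) ^ D) = ((2 * 4 ^ D + 1 : ℕ) : ℤ) := by push_cast; ring
  rw [this, Int.toNat_natCast]

end Pool.Agent.Helper85.GAP
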