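import Pool.Agent.Helper85.GAP.Uni

/-!
Number of divisors of bounded size in number fields of bounded degree.
-/

set_option autoImplicit false
open scoped Classical

namespace Pool.Agent.Helper85.GAP

open NumberField UniqueFactorizationMonoid Pool.Agent.Helper85.LowMult

/-- units of bounded size, uniform in the degree -/
theorem unit_count_uniform (D : ℕ) : ∃ A : ℝ, 0 < A ∧ ∀ (K : Type) [Field K] [NumberField K],
    Module.finrank ℚ K ≤ D → ∀ ρ : ℝ, 0 ≤ ρ →
    ∀ U : Finset (𝓞 K)ˣ, (∀ u ∈ U, ∀ w : InfinitePlace K, |Real.log (w (u : K))| ≤ ρ) →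
    (U.card : ℝ) ≤ A * (ρ + 1) ^ D := by
  obtain ⟨N2, hN2, hN2'⟩ := small_card D
  have hl2 : 0 < Real.log 2 := Real.log_pos (by norm_num)
  refine ⟨N2 * (2 / Real.log 2 + 3) ^ D, by positivity, ?_⟩
  intro K _ _ hKD ρ hρ U hU
  let m : ℕ := ⌈ρ / Real.log 2⌉₊
  let k : (𝓞 K)ˣ → (InfinitePlace K → ℤ) := fun u w => ⌊Real.log (w (u : K)) / Real.log 2⌋
  let box : Finset (InfinitePlace K → ℤ) := Fintype.piFinset (fun _ => Finset.Icc (-(m : ℤ)) m)
  have hcard : U.card ≤ N2 * box.card := by
    apply Finset.card_le_mul_card_image_of_maps_to (f := k)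
    · intro u hu
      rw [Fintype.mem_piFinset]
      intro w
      have h1 := hU u hu w
      have h2 : |Real.log (w (u : K)) / Real.log 2| ≤ ρ / Real.log 2 := by
        rw [abs_div, abs_of_pos hl2]
        exact div_le_div_of_nonneg_right h1 hl2.le
      have h3 : ρ / Real.log 2 ≤ (m : ℝ) := Nat.le_ceil _
      have h4 := abs_le.mp (h2.trans h3)
      rw [Finset.mem_Icc]
      constructor
      · apply Int.le_floor.mpr
        push_cast
        exact h4.1
      · have : ((⌊Real.log (w (u : K)) / Real.log 2⌋ : ℤ) : ℝ) ≤ (m : ℝ) :=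
          (Int.floor_le _).trans h4.2
        exact_mod_cast this
    · intro b _
      rcases (U.filter (fun u => k u = b)).eq_empty_or_nonempty with he | ⟨u0, hu0⟩
      · rw [he, Finset.card_empty]; exact Nat.zero_le _
      rw [Finset.mem_filter] at hu0
      have hinj : Function.Injective (fun u : (𝓞 K)ˣ => ((u * u0⁻¹ : (𝓞 K)ˣ) : 𝓞 K)) := by
        intro x y hxy
        have : x * u0⁻¹ = y * u0⁻¹ := Units.ext hxy
        exact mul_right_cancel this
      rw [← Finset.card_image_of_injective _ hinj]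
      apply hN2' K hKD
      intro x hx ψ
      rw [Finset.mem_image] at hx
      obtain ⟨u, hu, rfl⟩ := hx
      rw [Finset.mem_filter] at hu
      set w : InfinitePlace K := InfinitePlace.mk ψ with hw
      have hval : ‖ψ (((u * u0⁻¹ : (𝓞 K)ˣ) : 𝓞 K) : K)‖ = w (((u * u0⁻¹ : (𝓞 K)ˣ) : 𝓞 K) : K) := by
        rw [hw, InfinitePlace.apply]
      rw [hval]
      have hpu : ∀ v : (𝓞 K)ˣ, 0 < w (v : K) := fun v => by
        rw [InfinitePlace.pos_iff]
        exact Units.coe_ne_zero v
      have hlog : Real.log (w (((u * u0⁻¹ : (𝓞 K)ˣ) : 𝓞 K) : K)) =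
          Real.log (w (u : K)) - Real.log (w (u0 : K)) := by
        have e : (w (((u * u0⁻¹ : (𝓞 K)ˣ) : 𝓞 K) : K)) * w (u0 : K) = w (u : K) := by
          rw [← map_mul]
          congr 1
          have : ((u * u0⁻¹ * u0 : (𝓞 K)ˣ) : K) = (u : K) := by
            rw [inv_mul_cancel_right]
          rw [← this]
          push_cast
          rfl
        rw [← e, Real.log_mul (hpu _).ne' (hpu _).ne']
        ring
      have e1 : ⌊Real.log (w (u : K)) / Real.log 2⌋ = ⌊Real.log (w (u0 : K)) / Real.log 2⌋ :=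
        congrFun (hu.2.trans hu0.2.symm) w
      have e2 := Int.abs_sub_lt_one_of_floor_eq_floor e1
      rw [← sub_div, abs_div, abs_of_pos hl2, div_lt_one hl2] at e2
      have e3 : Real.log (w (((u * u0⁻¹ : (𝓞 K)ˣ) : 𝓞 K) : K)) ≤ Real.log 2 := by
        rw [hlog]
        exact (le_abs_self _).trans e2.le
      exact (Real.log_le_log_iff (hpu _) (by norm_num)).mp e3
  have hbox : box.card = (2 * m + 1) ^ Fintype.card (InfinitePlace K) := by
    rw [Fintype.card_piFinset]
    simp only [Int.card_Icc, Finset.prod_const, Finset.card_univ]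
    congr 1
    omega
  have hplaces : Fintype.card (InfinitePlace K) ≤ D := by
    refine le_trans ?_ hKD
    rw [← InfinitePlace.sum_mult_eq (K := K), ← Finset.card_univ, Finset.card_eq_sum_ones]
    exact Finset.sum_le_sum fun w _ => InfinitePlace.mult_pos
  have hm : ((2 * m + 1 : ℕ) : ℝ) ≤ (2 / Real.log 2 + 3) * (ρ + 1) := by
    have h1 : (m : ℝ) < ρ / Real.log 2 + 1 := Nat.ceil_lt_add_one (by positivity)
    push_cast
    have h2 : (2 / Real.log 2 + 3) * (ρ + 1) = 2 * (ρ / Real.log 2) + 2 / Real.log 2 + 3 * ρ + 3 := by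
      field_simp
      ring
    rw [h2]
    have : 0 < 2 / Real.log 2 := by positivity
    linarith
  calc (U.card : ℝ) ≤ ((N2 * box.card : ℕ) : ℝ) := by exact_mod_cast hcard
    _ = N2 * ((2 * m + 1 : ℕ) : ℝ) ^ Fintype.card (InfinitePlace K) := by rw [hbox]; push_cast; ring
    _ ≤ N2 * ((2 * m + 1 : ℕ) : ℝ) ^ D := by
        apply mul_le_mul_of_nonneg_left _ (Nat.cast_nonneg _)
        apply pow_le_pow_right₀ _ hplaces
        exact_mod_cast (by omega : 1 ≤ 2 * m + 1)
    _ ≤ N2 * ((2 / Real.log 2 + 3) * (ρ + 1)) ^ D := by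
        apply mul_le_mul_of_nonneg_left _ (Nat.cast_nonneg _)
        exact pow_le_pow_left₀ (by positivity) hm D
    _ = N2 * (2 / Real.log 2 + 3) ^ D * (ρ + 1) ^ D := by rw [mul_pow]; ring

/-- the number of divisors of bounded size in a number field, uniform in the degree -/
theorem count_uniform (D : ℕ) (δ : ℝ) (hδ : 0 < δ) :
    ∃ A : ℝ, 0 < A ∧ ∀ (K : Type) [Field K] [NumberField K], Module.finrank ℚ K ≤ D →
      ∀ X : ℝ, 1 ≤ X → ∀ (T : 𝓞 K), T ≠ 0 → ∀ Z : Finset (𝓞 K),
      (∀ z ∈ Z, ∃ y : 𝓞 K, z * y = T ∧ ∀ ψ : K →+* ℂ, ‖ψ (y : K)‖ ≤ X) →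
      (∀ z ∈ Z, ∀ ψ : K →+* ℂ, ‖ψ (z : K)‖ ≤ X) →
      (Z.card : ℝ) ≤ A * X ^ δ := by
  obtain ⟨A1, hA1, hA1'⟩ := unit_count_uniform D
  obtain ⟨A2, hA2, hA2'⟩ := divisor_bound_uniform D (δ / (4 * (D + 1))) (by positivity)
  set η : ℝ := δ / (2 * (D + 1)) with hη
  have hη0 : 0 < η := by positivity
  refine ⟨A1 * ((D + 1) / η + 1) ^ D * A2, by positivity, ?_⟩
  intro K _ _ hKD X hX T hT0 Z hZT hZX
  set g := Module.finrank ℚ K with hg
  have hgD : (g : ℝ) ≤ D := by exact_mod_cast hKD
  have hX0 : 0 < X := by linarith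
  have hlogX : 0 ≤ Real.log X := Real.log_nonneg hX
  by_cases hemp : Z.Nonempty
  swap
  · rw [Finset.not_nonempty_iff_eq_empty] at hemp
    rw [hemp]
    simp only [Finset.card_empty, Nat.cast_zero]
    positivity
  obtain ⟨z0, hz0⟩ := hemp
  have hne : ∀ z ∈ Z, z ≠ 0 := by
    intro z hz h
    obtain ⟨y, hy, _⟩ := hZT z hz
    rw [h, zero_mul] at hy
    exact hT0 hy.symm
  have hspan0 : Ideal.span {T} ≠ ⊥ := by
    rw [Ne, Ideal.span_singleton_eq_bot]
    exact hT0
  have hcard : Z.card ≤ ⌊A1 * ((D + 1) * Real.log X + 1) ^ D⌋₊ *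
      (Finset.Iic (normalizedFactors (Ideal.span {T}))).card := by
    apply Finset.card_le_mul_card_image_of_maps_to
      (f := fun z : 𝓞 K => normalizedFactors (Ideal.span {z}))
    · intro z hz
      rw [Finset.mem_Iic]
      have hz0' : Ideal.span {z} ≠ ⊥ := by
        rw [Ne, Ideal.span_singleton_eq_bot]
        exact hne z hz
      obtain ⟨y, hy, _⟩ := hZT z hz
      rw [← dvd_iff_normalizedFactors_le_normalizedFactors hz0' hspan0, Ideal.dvd_iff_le,
        Ideal.span_singleton_le_span_singleton]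
      exact ⟨y, hy.symm⟩
    · intro b _
      rw [Nat.le_floor_iff (by positivity)]
      by_cases hfe : (Z.filter (fun z => normalizedFactors (Ideal.span {z}) = b)).Nonempty
      swap
      · rw [Finset.not_nonempty_iff_eq_empty] at hfe
        rw [hfe]
        simp only [Finset.card_empty, Nat.cast_zero]
        positivity
      obtain ⟨z1, hz1⟩ := hfe
      rw [Finset.mem_filter] at hz1
      -- choose units
      have hunit : ∀ z ∈ Z.filter (fun z => normalizedFactors (Ideal.span {z}) = b),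
          ∃ u : (𝓞 K)ˣ, z1 * u = z := by
        intro z hz
        rw [Finset.mem_filter] at hz
        have hz0' : Ideal.span {z} ≠ ⊥ := by
          rw [Ne, Ideal.span_singleton_eq_bot]
          exact hne z hz.1
        have hz1' : Ideal.span {z1} ≠ ⊥ := by
          rw [Ne, Ideal.span_singleton_eq_bot]
          exact hne z1 hz1.1
        have e : Ideal.span {z1} = Ideal.span {z} := by
          have e1 := associated_iff_eq.mp (prod_normalizedFactors hz0')
          have e2 := associated_iff_eq.mp (prod_normalizedFactors hz1')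
          rw [← e1, ← e2, hz.2, hz1.2]
        rw [Ideal.span_singleton_eq_span_singleton] at e
        exact e
      choose! u hu using hunit
      have hinj : Set.InjOn u ↑(Z.filter (fun z => normalizedFactors (Ideal.span {z}) = b)) := by
        intro x hx y hy hxy
        rw [← hu x hx, ← hu y hy, hxy]
      rw [← Finset.card_image_of_injOn hinj]
      apply hA1' K hKD _ (by positivity)
      intro v hv w
      rw [Finset.mem_image] at hv
      obtain ⟨z, hz, rfl⟩ := hv
      have e := hu z hz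
      rw [Finset.mem_filter] at hz
      have hb1 : ∀ z ∈ Z, ∀ w : InfinitePlace K, w (z : K) ≤ X := by
        intro z hz w
        exact (InfinitePlace.le_iff_le _ _).mpr (hZX z hz) w
      have e2 : w (z : K) = w (z1 : K) * w ((u z : 𝓞 K) : K) := by
        rw [← map_mul]
        congr 1
        have := congrArg (fun x : 𝓞 K => (x : K)) e
        simpa using this.symm
      have hp1 : 0 < w (z1 : K) := by
        rw [InfinitePlace.pos_iff]
        simpa using hne z1 hz1.1
      have hp2 : 0 < w ((u z : 𝓞 K) : K) := by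
        rw [InfinitePlace.pos_iff]
        exact Units.coe_ne_zero (u z)
      have e3 : Real.log (w ((u z : 𝓞 K) : K)) = Real.log (w (z : K)) - Real.log (w (z1 : K)) := by
        rw [e2, Real.log_mul hp1.ne' hp2.ne']
        ring
      have l1 := log_lower K z (hne z hz.1) X hX (hb1 z hz.1) w
      have l2 := log_lower K z1 (hne z1 hz1.1) X hX (hb1 z1 hz1.1) w
      have l3 : Real.log (w (z : K)) ≤ Real.log X := by
        apply Real.log_le_log _ (hb1 z hz.1 w)
        rw [InfinitePlace.pos_iff]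
        simpa using hne z hz.1
      have l4 : Real.log (w (z1 : K)) ≤ Real.log X := Real.log_le_log hp1 (hb1 z1 hz1.1 w)
      have l5 : (g : ℝ) * Real.log X ≤ D * Real.log X := mul_le_mul_of_nonneg_right hgD hlogX
      show |Real.log (w ((u z : 𝓞 K) : K))| ≤ _
      rw [e3, abs_le]
      constructor <;> nlinarith
  -- final estimate
  have hTle : (Ideal.absNorm (Ideal.span {T}) : ℝ) ≤ (X * X) ^ D := by
    have h1 : (Ideal.absNorm (Ideal.span {T}) : ℝ) ≤ (X * X) ^ g := by
      apply absNorm_le K T (X * X) (by positivity)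
      intro w
      obtain ⟨y, hy, hyX⟩ := hZT z0 hz0
      have e1 : ((T : 𝓞 K) : K) = (z0 : K) * (y : K) := by rw [← hy]; rfl
      rw [e1, map_mul]
      apply mul_le_mul _ _ (apply_nonneg _ _) hX0.le
      · exact (InfinitePlace.le_iff_le _ _).mpr (hZX z0 hz0) w
      · exact (InfinitePlace.le_iff_le _ _).mpr hyX w
    refine h1.trans (pow_le_pow_right₀ ?_ hKD)
    nlinarith
  have hI := hA2' K hKD _ hspan0
  have hI2 : ((Finset.Iic (normalizedFactors (Ideal.span {T}))).card : ℝ) ≤ A2 * X ^ (δ / 2) := by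
    refine hI.trans ?_
    apply mul_le_mul_of_nonneg_left _ hA2.le
    calc (Ideal.absNorm (Ideal.span {T}) : ℝ) ^ (δ / (4 * (D + 1)))
        ≤ ((X * X) ^ D) ^ (δ / (4 * (D + 1))) := by
          apply Real.rpow_le_rpow (by positivity) hTle (by positivity)
      _ = X ^ (δ / 2 * (D / (D + 1))) := by
          rw [← Real.rpow_natCast, ← Real.rpow_mul (by positivity), ← sq, ← Real.rpow_natCast,
            ← Real.rpow_mul (by positivity)]
          congr 1
          have : (D : ℝ) + 1 ≠ 0 := by positivity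
          field_simp
          ring
      _ ≤ X ^ (δ / 2) := by
          apply Real.rpow_le_rpow_of_exponent_le hX
          have : (D : ℝ) / (D + 1) ≤ 1 := by
            rw [div_le_one (by positivity)]
            linarith
          nlinarith
  have hU : A1 * ((D + 1) * Real.log X + 1) ^ D ≤ A1 * ((D + 1) / η + 1) ^ D * X ^ (δ / 2) := by
    rw [mul_assoc]
    apply mul_le_mul_of_nonneg_left _ hA1.le
    have h1 : Real.log X ≤ X ^ η / η := Real.log_le_rpow_div hX0.le hη0
    have h2 : 1 ≤ X ^ η := Real.one_le_rpow hX hη0.le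
    have h3 : ((D : ℝ) + 1) * Real.log X + 1 ≤ ((D + 1) / η + 1) * X ^ η := by
      calc ((D : ℝ) + 1) * Real.log X + 1 ≤ (D + 1) * (X ^ η / η) + X ^ η := by
            have : (0 : ℝ) ≤ (D : ℝ) + 1 := by positivity
            nlinarith
        _ = ((D + 1) / η + 1) * X ^ η := by ring
    calc ((((D : ℝ) + 1) * Real.log X + 1)) ^ D ≤ (((D + 1) / η + 1) * X ^ η) ^ D :=
          pow_le_pow_left₀ (by positivity) h3 D
      _ = ((D + 1) / η + 1) ^ D * (X ^ η) ^ D := mul_pow _ _ _
      _ ≤ ((D + 1) / η + 1) ^ D * X ^ (δ / 2) := by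
          apply mul_le_mul_of_nonneg_left _ (by positivity)
          rw [← Real.rpow_natCast, ← Real.rpow_mul hX0.le]
          apply Real.rpow_le_rpow_of_exponent_le hX
          rw [hη]
          have hr : (0 : ℝ) ≤ D := Nat.cast_nonneg D
          rw [div_mul_eq_mul_div, div_le_div_iff₀ (by positivity) (by norm_num)]
          nlinarith
  calc (Z.card : ℝ) ≤ ((⌊A1 * ((D + 1) * Real.log X + 1) ^ D⌋₊ *
        (Finset.Iic (normalizedFactors (Ideal.span {T}))).card : ℕ) : ℝ) := by exact_mod_cast hcard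
    _ = (⌊A1 * ((D + 1) * Real.log X + 1) ^ D⌋₊ : ℝ) *
        ((Finset.Iic (normalizedFactors (Ideal.span {T}))).card : ℝ) := by push_cast; ring
    _ ≤ (A1 * ((D + 1) / η + 1) ^ D * X ^ (δ / 2)) * (A2 * X ^ (δ / 2)) := by
        apply mul_le_mul _ hI2 (Nat.cast_nonneg _) (by positivity)
        exact (Nat.floor_le (by positivity)).trans hU
    _ = A1 * ((D + 1) / η + 1) ^ D * A2 * X ^ δ := by
        have : X ^ δ = X ^ (δ / 2) * X ^ (δ / 2) := by
          rw [← Real.rpow_add hX0]
          congr 1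
          ring
        rw [this]
        ring

end Pool.Agent.Helper85.GAP
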